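import Mathlib

/-! Random finite sets with independent elements, abstract form: `P` is a nonnegative weight on a
finite type, `V ω` the random set, and the only hypothesis is `P(T ⊆ V) ≤ ∏_{v ∈ T} p v`.
Exponential moments over pairwise disjoint supports, greedy decomposition of a hypergraph of
bounded degree into matchings, and the edge lemma. -/

set_option autoImplicit false

namespace Pool.Agent.Helper1.ET4

open Finset

variable {Ω γ ε : Type*} [Fintype Ω] [DecidableEq γ] [DecidableEq ε]

/-- exponential moment over pairwise disjoint supports -/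
theorem exp_moment_abs (P : Ω → ℝ) (V : Ω → Finset γ) (p : γ → ℝ)
    (hp : ∀ v, 0 ≤ p v)
    (hind : ∀ T : Finset γ, ∑ ω, P ω * (if T ⊆ V ω then 1 else 0) ≤ ∏ v ∈ T, p v)
    (E : Finset ε) (supp : ε → Finset γ) (hd : (E : Set ε).PairwiseDisjoint supp)
    (x : ε → ℝ) (hx : ∀ e ∈ E, 0 ≤ x e) :
    ∑ ω, P ω * Real.exp (∑ e ∈ E with supp e ⊆ V ω, x e)
      ≤ Real.exp (∑ e ∈ E, (∏ v ∈ supp e, p v) * (Real.exp (x e) - 1)) := by
  have hc : ∀ e ∈ E, 0 ≤ Real.exp (x e) - 1 := fun e he => by
    have := Real.one_le_exp (hx e he)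
    linarith
  have h1 : ∀ ω : Ω, Real.exp (∑ e ∈ E with supp e ⊆ V ω, x e)
      = ∑ R ∈ E.powerset, (∏ e ∈ R, (Real.exp (x e) - 1)) *
          (if R.biUnion supp ⊆ V ω then 1 else 0) := by
    intro ω
    rw [Finset.sum_filter, Real.exp_sum]
    have h2 : ∀ e ∈ E, Real.exp (if supp e ⊆ V ω then x e else 0)
        = (Real.exp (x e) - 1) * (if supp e ⊆ V ω then 1 else 0) + 1 := by
      intro e _
      by_cases h : supp e ⊆ V ω
      · simp [h]
      · simp [h]
    rw [Finset.prod_congr rfl h2, Finset.prod_add]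
    refine Finset.sum_congr rfl fun R hR => ?_
    rw [Finset.prod_const_one, mul_one, Finset.prod_mul_distrib]
    congr 1
    by_cases h : R.biUnion supp ⊆ V ω
    · rw [if_pos h]
      refine Finset.prod_eq_one fun e he => if_pos ?_
      exact fun v hv => h (Finset.mem_biUnion.2 ⟨e, he, hv⟩)
    · rw [if_neg h]
      obtain ⟨v, hv, hvV⟩ := Finset.not_subset.1 h
      obtain ⟨e, he, hve⟩ := Finset.mem_biUnion.1 hv
      exact Finset.prod_eq_zero he (if_neg fun hs => hvV (hs hve))
  calc ∑ ω, P ω * Real.exp (∑ e ∈ E with supp e ⊆ V ω, x e)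
      = ∑ R ∈ E.powerset, (∏ e ∈ R, (Real.exp (x e) - 1)) *
          ∑ ω, P ω * (if R.biUnion supp ⊆ V ω then 1 else 0) := by
        simp_rw [h1, Finset.mul_sum]
        rw [Finset.sum_comm]
        refine Finset.sum_congr rfl fun R _ => Finset.sum_congr rfl fun ω _ => ?_
        ring
    _ ≤ ∑ R ∈ E.powerset, (∏ e ∈ R, (Real.exp (x e) - 1)) *
          ∏ e ∈ R, ∏ v ∈ supp e, p v := by
        refine Finset.sum_le_sum fun R hR => ?_
        have hRE := Finset.mem_powerset.1 hR
        refine mul_le_mul_of_nonneg_left ?_ (Finset.prod_nonneg fun e he => hc e (hRE he))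
        refine (hind _).trans (le_of_eq ?_)
        rw [Finset.prod_biUnion]
        exact hd.subset (by exact_mod_cast hRE)
    _ = ∏ e ∈ E, (1 + (Real.exp (x e) - 1) * ∏ v ∈ supp e, p v) := by
        rw [Finset.prod_one_add]
        refine Finset.sum_congr rfl fun R _ => ?_
        rw [Finset.prod_mul_distrib]
    _ ≤ ∏ e ∈ E, Real.exp ((∏ v ∈ supp e, p v) * (Real.exp (x e) - 1)) := by
        refine Finset.prod_le_prod (fun e he => ?_) fun e he => ?_
        · have := mul_nonneg (hc e he) (Finset.prod_nonneg fun v (_ : v ∈ supp e) => hp v)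
          linarith
        · have := Real.add_one_le_exp ((∏ v ∈ supp e, p v) * (Real.exp (x e) - 1))
          linarith
    _ = _ := by rw [Real.exp_sum]

/-- upper tail for a matching -/
theorem matching_tail (P : Ω → ℝ) (hP : ∀ ω, 0 ≤ P ω) (V : Ω → Finset γ) (p : γ → ℝ)
    (hp : ∀ v, 0 ≤ p v)
    (hind : ∀ T : Finset γ, ∑ ω, P ω * (if T ⊆ V ω then 1 else 0) ≤ ∏ v ∈ T, p v)
    (E : Finset ε) (supp : ε → Finset γ) (hd : (E : Set ε).PairwiseDisjoint supp)
    (μ θ : ℝ) (hθ : 0 ≤ θ) (hμ : ∑ e ∈ E, ∏ v ∈ supp e, p v ≤ μ) (t : ℝ) :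
    ∑ ω, P ω * (if t ≤ ((E.filter fun e => supp e ⊆ V ω).card : ℝ) then 1 else 0)
      ≤ Real.exp (μ * (Real.exp θ - 1) - θ * t) := by
  have h0 : 0 ≤ Real.exp θ - 1 := by
    have := Real.one_le_exp hθ
    linarith
  have h1 := exp_moment_abs P V p hp hind E supp hd (fun _ => θ) fun _ _ => hθ
  have h2 : ∀ ω, P ω * (if t ≤ ((E.filter fun e => supp e ⊆ V ω).card : ℝ) then 1 else 0)
      ≤ Real.exp (-(θ * t)) * (P ω * Real.exp (∑ e ∈ E with supp e ⊆ V ω, θ)) := by
    intro ω
    by_cases h : t ≤ ((E.filter fun e => supp e ⊆ V ω).card : ℝ)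
    · rw [if_pos h, mul_one, mul_left_comm, ← Real.exp_add]
      have h3 : (1 : ℝ) ≤ Real.exp (-(θ * t) + ∑ e ∈ E with supp e ⊆ V ω, θ) := by
        apply Real.one_le_exp
        rw [Finset.sum_const, nsmul_eq_mul]
        have := mul_le_mul_of_nonneg_left h hθ
        linarith
      exact le_mul_of_one_le_right (hP ω) h3
    · rw [if_neg h, mul_zero]
      exact mul_nonneg (Real.exp_pos _).le (mul_nonneg (hP ω) (Real.exp_pos _).le)
  calc _ ≤ ∑ ω, Real.exp (-(θ * t)) * (P ω * Real.exp (∑ e ∈ E with supp e ⊆ V ω, θ)) :=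
        Finset.sum_le_sum fun ω _ => h2 ω
    _ = Real.exp (-(θ * t)) * ∑ ω, P ω * Real.exp (∑ e ∈ E with supp e ⊆ V ω, θ) := by
        rw [Finset.mul_sum]
    _ ≤ Real.exp (-(θ * t)) * Real.exp (μ * (Real.exp θ - 1)) := by
        refine mul_le_mul_of_nonneg_left (h1.trans ?_) (Real.exp_pos _).le
        apply Real.exp_le_exp.2
        rw [← Finset.sum_mul]
        exact mul_le_mul_of_nonneg_right hμ h0
    _ = _ := by
        rw [← Real.exp_add]
        congr 1
        ring

/-- greedy colouring of a finite set with a symmetric conflict relation of bounded degree -/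
theorem exists_colouring (E : Finset ε) (R : ε → ε → Prop) [DecidableRel R]
    (hsymm : ∀ a b, R a b → R b a) (D : ℕ)
    (hD : ∀ e ∈ E, (E.filter fun f => f ≠ e ∧ R e f).card ≤ D) :
    ∃ c : ε → ℕ, (∀ e, c e < D + 1) ∧ ∀ e ∈ E, ∀ f ∈ E, e ≠ f → R e f → c e ≠ c f := by
  -- induct on subsets of `E`
  suffices H : ∀ F : Finset ε, F ⊆ E → ∃ c : ε → ℕ, (∀ e, c e < D + 1) ∧
      ∀ e ∈ F, ∀ f ∈ F, e ≠ f → R e f → c e ≠ c f from H E (Finset.Subset.refl E)
  intro F
  induction F using Finset.induction_on with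
  | empty =>
    intro _
    exact ⟨fun _ => 0, fun _ => Nat.succ_pos D, by simp⟩
  | insert a F ha ih =>
    intro hF
    obtain ⟨c, hc, hc2⟩ := ih fun x hx => hF (Finset.mem_insert_of_mem hx)
    have haE : a ∈ E := hF (Finset.mem_insert_self a F)
    -- the colours used by the conflicting neighbours
    have h1 : ((F.filter fun f => R a f).image c).card ≤ D := by
      refine Finset.card_image_le.trans (le_trans (Finset.card_le_card ?_) (hD a haE))
      intro f hf
      have hf' := Finset.mem_filter.1 hf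
      refine Finset.mem_filter.2 ⟨hF (Finset.mem_insert_of_mem hf'.1), ?_, hf'.2⟩
      rintro rfl
      exact ha hf'.1
    obtain ⟨k, hk, hk2⟩ : ∃ k ∈ Finset.range (D + 1), k ∉ (F.filter fun f => R a f).image c := by
      by_contra hcon
      push Not at hcon
      have h2 := Finset.card_le_card (s := Finset.range (D + 1)) hcon
      rw [Finset.card_range] at h2
      omega
    refine ⟨Function.update c a k, fun e => ?_, ?_⟩
    · by_cases he : e = a
      · rw [he, Function.update_self]
        exact Finset.mem_range.1 hk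
      · rw [Function.update_of_ne he]
        exact hc e
    · intro e he f hf hne hR
      rcases Finset.mem_insert.1 he with rfl | he' <;> rcases Finset.mem_insert.1 hf with rfl | hf'
      · exact absurd rfl hne
      · rw [Function.update_self, Function.update_of_ne (Ne.symm hne)]
        intro h3
        exact hk2 (Finset.mem_image.2 ⟨f, Finset.mem_filter.2 ⟨hf', hR⟩, h3.symm⟩)
      · rw [Function.update_self, Function.update_of_ne hne]
        intro h3
        exact hk2 (Finset.mem_image.2 ⟨e, Finset.mem_filter.2 ⟨he', hsymm _ _ hR⟩, h3⟩)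
      · have hea : e ≠ a := by rintro rfl; exact ha he'
        have hfa : f ≠ a := by rintro rfl; exact ha hf'
        rw [Function.update_of_ne hea, Function.update_of_ne hfa]
        exact hc2 e he' f hf' hne hR

/-- THE EDGE LEMMA: at most `r` vertices per edge, at most `d` edges per vertex, mean at most `μ` -/
theorem edge_tail (P : Ω → ℝ) (hP : ∀ ω, 0 ≤ P ω) (V : Ω → Finset γ) (p : γ → ℝ)
    (hp : ∀ v, 0 ≤ p v)
    (hind : ∀ T : Finset γ, ∑ ω, P ω * (if T ⊆ V ω then 1 else 0) ≤ ∏ v ∈ T, p v)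
    (E : Finset ε) (supp : ε → Finset γ) (r d : ℕ) (hr : ∀ e ∈ E, (supp e).card ≤ r)
    (hdeg : ∀ v, (E.filter fun e => v ∈ supp e).card ≤ d)
    (μ θ : ℝ) (hθ : 0 ≤ θ) (hμ : ∑ e ∈ E, ∏ v ∈ supp e, p v ≤ μ) (t : ℝ) :
    ∑ ω, P ω * (if ((r * d + 1 : ℕ) : ℝ) * t ≤ ((E.filter fun e => supp e ⊆ V ω).card : ℝ)
      then 1 else 0) ≤ ((r * d + 1 : ℕ) : ℝ) * Real.exp (μ * (Real.exp θ - 1) - θ * t) := by
  classical
  obtain ⟨c, hc, hc2⟩ := exists_colouring E (fun e f => ¬ Disjoint (supp e) (supp f))
    (fun a b h h' => h h'.symm) (r * d) (by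
      intro e he
      calc (E.filter fun f => f ≠ e ∧ ¬ Disjoint (supp e) (supp f)).card
          ≤ ((supp e).biUnion fun v => E.filter fun f => v ∈ supp f).card := by
            refine Finset.card_le_card fun f hf => ?_
            have hf' := Finset.mem_filter.1 hf
            obtain ⟨v, hv, hv2⟩ := Finset.not_disjoint_iff.1 hf'.2.2
            exact Finset.mem_biUnion.2 ⟨v, hv, Finset.mem_filter.2 ⟨hf'.1, hv2⟩⟩
        _ ≤ ∑ v ∈ supp e, (E.filter fun f => v ∈ supp f).card := Finset.card_biUnion_le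
        _ ≤ ∑ v ∈ supp e, d := Finset.sum_le_sum fun v _ => hdeg v
        _ = (supp e).card * d := by rw [Finset.sum_const, smul_eq_mul]
        _ ≤ r * d := Nat.mul_le_mul_right d (hr e he))
  -- the matchings
  have hM : ∀ k ∈ Finset.range (r * d + 1),
      ∑ ω, P ω * (if t ≤ (((E.filter fun e => c e = k).filter fun e => supp e ⊆ V ω).card : ℝ)
        then 1 else 0) ≤ Real.exp (μ * (Real.exp θ - 1) - θ * t) := by
    intro k _
    refine matching_tail P hP V p hp hind (E.filter fun e => c e = k) supp ?_ μ θ hθ ?_ t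
    · intro e he f hf hne
      have he' := Finset.mem_filter.1 (Finset.mem_coe.1 he)
      have hf' := Finset.mem_filter.1 (Finset.mem_coe.1 hf)
      by_contra hcon
      exact hc2 e he'.1 f hf'.1 hne hcon (he'.2.trans hf'.2.symm)
    · refine le_trans (Finset.sum_le_sum_of_subset_of_nonneg (Finset.filter_subset _ _) ?_) hμ
      intro e _ _
      exact Finset.prod_nonneg fun v _ => hp v
  have hpt : ∀ ω, P ω * (if ((r * d + 1 : ℕ) : ℝ) * t
        ≤ ((E.filter fun e => supp e ⊆ V ω).card : ℝ) then 1 else 0)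
      ≤ ∑ k ∈ Finset.range (r * d + 1),
        P ω * (if t ≤ (((E.filter fun e => c e = k).filter fun e => supp e ⊆ V ω).card : ℝ)
          then 1 else 0) := by
    intro ω
    rw [← Finset.mul_sum]
    refine mul_le_mul_of_nonneg_left ?_ (hP ω)
    have hnn : ∀ k ∈ Finset.range (r * d + 1), (0 : ℝ) ≤
        (if t ≤ (((E.filter fun e => c e = k).filter fun e => supp e ⊆ V ω).card : ℝ)
          then 1 else 0) := by
      intro k _
      split_ifs <;> norm_num
    by_cases h : ((r * d + 1 : ℕ) : ℝ) * t ≤ ((E.filter fun e => supp e ⊆ V ω).card : ℝ)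
    · rw [if_pos h]
      obtain ⟨k, hk, hk2⟩ : ∃ k ∈ Finset.range (r * d + 1),
          t ≤ (((E.filter fun e => c e = k).filter fun e => supp e ⊆ V ω).card : ℝ) := by
        by_contra hcon
        push Not at hcon
        have h1 : (E.filter fun e => supp e ⊆ V ω).card = ∑ k ∈ Finset.range (r * d + 1),
            ((E.filter fun e => c e = k).filter fun e => supp e ⊆ V ω).card := by
          rw [Finset.card_eq_sum_card_fiberwise (f := c) (t := Finset.range (r * d + 1))
            (fun e _ => Finset.mem_coe.2 (Finset.mem_range.2 (hc e)))]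
          refine Finset.sum_congr rfl fun k _ => ?_
          congr 1
          ext e
          simp only [Finset.mem_filter]
          tauto
        have h2 : ((E.filter fun e => supp e ⊆ V ω).card : ℝ)
            < ∑ _k ∈ Finset.range (r * d + 1), t := by
          rw [h1]
          push_cast
          exact Finset.sum_lt_sum_of_nonempty ⟨0, Finset.mem_range.2 (Nat.succ_pos _)⟩ hcon
        rw [Finset.sum_const, Finset.card_range, nsmul_eq_mul] at h2
        exact absurd h (not_le.2 h2)
      exact (by rw [if_pos hk2] : (1 : ℝ) = _).le.trans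
        (Finset.single_le_sum (f := fun k => if t ≤ (((E.filter fun e => c e = k).filter
          fun e => supp e ⊆ V ω).card : ℝ) then (1 : ℝ) else 0) hnn hk)
    · rw [if_neg h]
      exact Finset.sum_nonneg hnn
  calc _ ≤ ∑ ω, ∑ k ∈ Finset.range (r * d + 1),
        P ω * (if t ≤ (((E.filter fun e => c e = k).filter fun e => supp e ⊆ V ω).card : ℝ)
          then 1 else 0) := Finset.sum_le_sum fun ω _ => hpt ω
    _ = ∑ k ∈ Finset.range (r * d + 1), ∑ ω,
        P ω * (if t ≤ (((E.filter fun e => c e = k).filter fun e => supp e ⊆ V ω).card : ℝ)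
          then 1 else 0) := Finset.sum_comm
    _ ≤ ∑ _k ∈ Finset.range (r * d + 1), Real.exp (μ * (Real.exp θ - 1) - θ * t) :=
        Finset.sum_le_sum hM
    _ = _ := by rw [Finset.sum_const, Finset.card_range, nsmul_eq_mul]

end Pool.Agent.Helper1.ET4
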