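import Pool.Agent.Helper1.ET4.Edge

/-! Consequences of the edge lemma: the choice of the exponent, families of graphs, and the
independence hypothesis for uniform keys (with an arbitrary further uniform factor). -/

set_option autoImplicit false

namespace Pool.Agent.Helper1.ET4

open Finset

/-- with `θ = (log W) / 2` and `t = 2 (K + μ) W / log W` the exponent is at most `- K W` -/
theorem edge_exponent (μ K W : ℝ) (hμ : 0 ≤ μ) (hW : 1 < W) :
    μ * (Real.exp (Real.log W / 2) - 1) - Real.log W / 2 * (2 * (K + μ) * W / Real.log W)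
      ≤ -(K * W) := by
  have hl : 0 < Real.log W := Real.log_pos hW
  have h1 : Real.exp (Real.log W / 2) ≤ W := by
    calc Real.exp (Real.log W / 2) ≤ Real.exp (Real.log W) := Real.exp_le_exp.2 (by linarith)
      _ = W := Real.exp_log (by linarith)
  have h2 : Real.log W / 2 * (2 * (K + μ) * W / Real.log W) = (K + μ) * W := by
    field_simp
  rw [h2]
  have h3 : μ * (Real.exp (Real.log W / 2) - 1) ≤ μ * W :=
    mul_le_mul_of_nonneg_left (by linarith) hμ
  linarith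

variable {Ω γ ε : Type*} [Fintype Ω] [DecidableEq γ] [DecidableEq ε]

/-- the edge lemma with the right number `2 (r d + 1) (K + μ) W / log W` of edges -/
theorem edge_tail_log (P : Ω → ℝ) (hP : ∀ ω, 0 ≤ P ω) (V : Ω → Finset γ) (p : γ → ℝ)
    (hp : ∀ v, 0 ≤ p v)
    (hind : ∀ T : Finset γ, ∑ ω, P ω * (if T ⊆ V ω then 1 else 0) ≤ ∏ v ∈ T, p v)
    (E : Finset ε) (supp : ε → Finset γ) (r d : ℕ) (hr : ∀ e ∈ E, (supp e).card ≤ r)
    (hdeg : ∀ v, (E.filter fun e => v ∈ supp e).card ≤ d)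
    (μ K W : ℝ) (hμ0 : 0 ≤ μ) (hμ : ∑ e ∈ E, ∏ v ∈ supp e, p v ≤ μ) (hW : 1 < W) :
    ∑ ω, P ω * (if ((r * d + 1 : ℕ) : ℝ) * (2 * (K + μ) * W / Real.log W)
        ≤ ((E.filter fun e => supp e ⊆ V ω).card : ℝ) then 1 else 0)
      ≤ ((r * d + 1 : ℕ) : ℝ) * Real.exp (-(K * W)) := by
  refine (edge_tail P hP V p hp hind E supp r d hr hdeg μ (Real.log W / 2)
    (by have := Real.log_pos hW; linarith) hμ _).trans ?_
  exact mul_le_mul_of_nonneg_left (Real.exp_le_exp.2 (edge_exponent μ K W hμ0 hW))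
    (Nat.cast_nonneg _)

/-- a family of graphs: the probability that one of them has many edges -/
theorem family_tail {ι : Type*} [DecidableEq ι] (P : Ω → ℝ) (hP : ∀ ω, 0 ≤ P ω)
    (V : Ω → Finset γ) (p : γ → ℝ) (hp : ∀ v, 0 ≤ p v)
    (hind : ∀ T : Finset γ, ∑ ω, P ω * (if T ⊆ V ω then 1 else 0) ≤ ∏ v ∈ T, p v)
    (I : Finset ι) (E : ι → Finset ε) (supp : ι → ε → Finset γ) (r d : ℕ)
    (hr : ∀ i ∈ I, ∀ e ∈ E i, (supp i e).card ≤ r)
    (hdeg : ∀ i ∈ I, ∀ v, ((E i).filter fun e => v ∈ supp i e).card ≤ d)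
    (μ K W : ℝ) (hμ0 : 0 ≤ μ) (hμ : ∀ i ∈ I, ∑ e ∈ E i, ∏ v ∈ supp i e, p v ≤ μ) (hW : 1 < W) :
    ∑ ω, P ω * (if ∃ i ∈ I, ((r * d + 1 : ℕ) : ℝ) * (2 * (K + μ) * W / Real.log W)
        ≤ (((E i).filter fun e => supp i e ⊆ V ω).card : ℝ) then 1 else 0)
      ≤ (I.card : ℝ) * (((r * d + 1 : ℕ) : ℝ) * Real.exp (-(K * W))) := by
  classical
  have hpt : ∀ ω, P ω * (if ∃ i ∈ I, ((r * d + 1 : ℕ) : ℝ) * (2 * (K + μ) * W / Real.log W)
        ≤ (((E i).filter fun e => supp i e ⊆ V ω).card : ℝ) then 1 else 0)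
      ≤ ∑ i ∈ I, P ω * (if ((r * d + 1 : ℕ) : ℝ) * (2 * (K + μ) * W / Real.log W)
        ≤ (((E i).filter fun e => supp i e ⊆ V ω).card : ℝ) then 1 else 0) := by
    intro ω
    have hnn : ∀ i ∈ I, 0 ≤ P ω * (if ((r * d + 1 : ℕ) : ℝ) * (2 * (K + μ) * W / Real.log W)
        ≤ (((E i).filter fun e => supp i e ⊆ V ω).card : ℝ) then 1 else 0) := by
      intro i _
      refine mul_nonneg (hP ω) ?_
      split_ifs <;> norm_num
    by_cases h : ∃ i ∈ I, ((r * d + 1 : ℕ) : ℝ) * (2 * (K + μ) * W / Real.log W)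
        ≤ (((E i).filter fun e => supp i e ⊆ V ω).card : ℝ)
    · rw [if_pos h]
      obtain ⟨i, hi, hi2⟩ := h
      refine le_trans (le_of_eq ?_) (Finset.single_le_sum hnn hi)
      rw [if_pos hi2]
    · rw [if_neg h, mul_zero]
      exact Finset.sum_nonneg hnn
  calc _ ≤ ∑ ω, ∑ i ∈ I, P ω * (if ((r * d + 1 : ℕ) : ℝ) * (2 * (K + μ) * W / Real.log W)
        ≤ (((E i).filter fun e => supp i e ⊆ V ω).card : ℝ) then 1 else 0) :=
        Finset.sum_le_sum fun ω _ => hpt ω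
    _ = ∑ i ∈ I, ∑ ω, P ω * (if ((r * d + 1 : ℕ) : ℝ) * (2 * (K + μ) * W / Real.log W)
        ≤ (((E i).filter fun e => supp i e ⊆ V ω).card : ℝ) then 1 else 0) := Finset.sum_comm
    _ ≤ ∑ _i ∈ I, ((r * d + 1 : ℕ) : ℝ) * Real.exp (-(K * W)) := by
        refine Finset.sum_le_sum fun i hi => ?_
        exact edge_tail_log P hP V p hp hind (E i) (supp i) r d (hr i hi) (hdeg i hi) μ K W hμ0
          (hμ i hi) hW
    _ = _ := by rw [Finset.sum_const, nsmul_eq_mul]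

/-- number of key functions with prescribed sets of values on `T` -/
theorem card_keys {Γ : Type*} [Fintype Γ] [DecidableEq Γ] (κ : Γ → Type*) [∀ v, Fintype (κ v)]
    [∀ v, DecidableEq (κ v)] (S : ∀ v, Finset (κ v)) (T : Finset Γ) :
    (Finset.univ.filter fun ω : ∀ v, κ v => ∀ v ∈ T, ω v ∈ S v).card
      * ∏ v ∈ T, Fintype.card (κ v) = (∏ v ∈ T, (S v).card) * Fintype.card (∀ v, κ v) := by
  classical
  have h1 : (Finset.univ.filter fun ω : ∀ v, κ v => ∀ v ∈ T, ω v ∈ S v)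
      = Fintype.piFinset fun v => if v ∈ T then S v else Finset.univ := by
    ext ω
    simp only [Finset.mem_filter, Finset.mem_univ, true_and, Fintype.mem_piFinset]
    refine forall_congr' fun v => ?_
    by_cases hv : v ∈ T
    · simp [hv]
    · simp [hv]
  have h2 : ∀ v, ((if v ∈ T then S v else Finset.univ : Finset (κ v)).card)
      = if v ∈ T then (S v).card else Fintype.card (κ v) := by
    intro v
    by_cases hv : v ∈ T
    · simp [hv]
    · simp [hv]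
  rw [h1, Fintype.card_piFinset, Fintype.card_pi, Finset.prod_congr rfl fun v _ => h2 v]
  have h3 : ∀ f : Γ → ℕ, ∏ v, f v = (∏ v ∈ T, f v) * ∏ v ∈ Tᶜ, f v := fun f =>
    (Finset.prod_mul_prod_compl T f).symm
  rw [h3 fun v => if v ∈ T then (S v).card else Fintype.card (κ v),
    h3 fun v => Fintype.card (κ v)]
  have h4 : ∏ v ∈ T, (if v ∈ T then (S v).card else Fintype.card (κ v)) = ∏ v ∈ T, (S v).card :=
    Finset.prod_congr rfl fun v hv => if_pos hv
  have h5 : ∏ v ∈ Tᶜ, (if v ∈ T then (S v).card else Fintype.card (κ v))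
      = ∏ v ∈ Tᶜ, Fintype.card (κ v) :=
    Finset.prod_congr rfl fun v hv => if_neg (Finset.mem_compl.1 hv)
  rw [h4, h5]
  ring

/-- the independence hypothesis of the edge lemma for uniform keys: the random set is
`{v | ω v ∈ S v}`, the probability of `v` is `|S v| / |κ v|`, and `Ω'` is a further uniform
factor which plays no role -/
theorem ind_keys {Γ Ω' : Type*} [Fintype Γ] [DecidableEq Γ] [Fintype Ω'] [Nonempty Ω']
    (κ : Γ → Type*) [∀ v, Fintype (κ v)] [∀ v, DecidableEq (κ v)] [∀ v, Nonempty (κ v)]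
    (S : ∀ v, Finset (κ v)) (T : Finset Γ) :
    ∑ ω : (∀ v, κ v) × Ω', (1 / (Fintype.card ((∀ v, κ v) × Ω') : ℝ)) *
        (if T ⊆ Finset.univ.filter (fun v => ω.1 v ∈ S v) then 1 else 0)
      = ∏ v ∈ T, ((S v).card : ℝ) / (Fintype.card (κ v) : ℝ) := by
  classical
  rw [← Finset.mul_sum, Fintype.sum_prod_type]
  have h1 : ∀ ω : ∀ v, κ v, ∑ _y : Ω', (if T ⊆ Finset.univ.filter (fun v => ω v ∈ S v)
      then (1 : ℝ) else 0) = (Fintype.card Ω' : ℝ) * (if ∀ v ∈ T, ω v ∈ S v then 1 else 0) := by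
    intro ω
    rw [Finset.sum_const, Finset.card_univ, nsmul_eq_mul]
    congr 1
    by_cases h : ∀ v ∈ T, ω v ∈ S v
    · rw [if_pos h, if_pos]
      intro v hv
      exact Finset.mem_filter.2 ⟨Finset.mem_univ _, h v hv⟩
    · rw [if_neg h, if_neg]
      exact fun h' => h fun v hv => (Finset.mem_filter.1 (h' hv)).2
  rw [Finset.sum_congr rfl fun ω _ => h1 ω, ← Finset.mul_sum, Finset.sum_boole,
    Fintype.card_prod, Finset.prod_div_distrib]
  have h2 := card_keys κ S T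
  have h3 : ((Finset.univ.filter fun ω : ∀ v, κ v => ∀ v ∈ T, ω v ∈ S v).card : ℝ)
      * ∏ v ∈ T, (Fintype.card (κ v) : ℝ)
      = (∏ v ∈ T, ((S v).card : ℝ)) * (Fintype.card (∀ v, κ v) : ℝ) := by exact_mod_cast h2
  have h4 : (∏ v ∈ T, (Fintype.card (κ v) : ℝ)) ≠ 0 :=
    Finset.prod_ne_zero_iff.2 fun v _ => Nat.cast_ne_zero.2 Fintype.card_ne_zero
  have h5 : (Fintype.card (∀ v, κ v) : ℝ) ≠ 0 := Nat.cast_ne_zero.2 Fintype.card_ne_zero
  have h6 : (Fintype.card Ω' : ℝ) ≠ 0 := Nat.cast_ne_zero.2 Fintype.card_ne_zero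
  rw [eq_div_iff h4]
  push_cast
  field_simp
  linarith [h3]

end Pool.Agent.Helper1.ET4
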