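import Pool.Agent.Helper1.ET4.Edge2

/-! Finite probability in the form `pr P S`, union bounds; many pairwise disjoint edges inside the
random set (bound `μ ^ t / t!`), and the step from disjoint edges to all edges. -/

set_option autoImplicit false

namespace Pool.Agent.Helper1.ET4

open Finset

section Prob

variable {Ω : Type*} [Fintype Ω]

/-- the weight of a set of outcomes -/
noncomputable def pr (P : Ω → ℝ) (S : Set Ω) : ℝ := ∑ ω, S.indicator P ω

theorem pr_eq_sum (P : Ω → ℝ) (S : Set Ω) [DecidablePred (· ∈ S)] :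
    pr P S = ∑ ω, P ω * (if ω ∈ S then 1 else 0) := by
  classical
  unfold pr
  refine Finset.sum_congr rfl fun ω _ => ?_
  by_cases h : ω ∈ S
  · simp [h]
  · simp [h]

theorem pr_nonneg (P : Ω → ℝ) (hP : ∀ ω, 0 ≤ P ω) (S : Set Ω) : 0 ≤ pr P S :=
  Finset.sum_nonneg fun ω _ => Set.indicator_nonneg (fun x _ => hP x) ω

theorem pr_mono (P : Ω → ℝ) (hP : ∀ ω, 0 ≤ P ω) {S T : Set Ω} (h : S ⊆ T) : pr P S ≤ pr P T :=
  Finset.sum_le_sum fun ω _ => Set.indicator_le_indicator_of_subset h hP ω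

theorem pr_univ (P : Ω → ℝ) : pr P Set.univ = ∑ ω, P ω := by
  unfold pr
  simp

theorem pr_union_le (P : Ω → ℝ) (hP : ∀ ω, 0 ≤ P ω) (S T : Set Ω) :
    pr P (S ∪ T) ≤ pr P S + pr P T := by
  classical
  unfold pr
  rw [← Finset.sum_add_distrib]
  refine Finset.sum_le_sum fun ω _ => ?_
  have := hP ω
  by_cases h1 : ω ∈ S <;> by_cases h2 : ω ∈ T <;> simp [Set.indicator, h1, h2, this]

/-- union bound over a finite index set -/
theorem pr_biUnion_le {ι : Type*} (P : Ω → ℝ) (hP : ∀ ω, 0 ≤ P ω) (I : Finset ι)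
    (S : ι → Set Ω) (U : Set Ω) (hU : ∀ ω ∈ U, ∃ i ∈ I, ω ∈ S i) :
    pr P U ≤ ∑ i ∈ I, pr P (S i) := by
  classical
  unfold pr
  rw [Finset.sum_comm]
  refine Finset.sum_le_sum fun ω _ => ?_
  have hnn : ∀ i ∈ I, 0 ≤ (S i).indicator P ω := fun i _ =>
    Set.indicator_nonneg (fun x _ => hP x) ω
  by_cases h : ω ∈ U
  · obtain ⟨i, hi, hi2⟩ := hU ω h
    rw [Set.indicator_of_mem h]
    refine le_trans (le_of_eq ?_) (Finset.single_le_sum hnn hi)
    rw [Set.indicator_of_mem hi2]
  · rw [Set.indicator_of_notMem h]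
    exact Finset.sum_nonneg hnn

/-- an outcome outside a set of small weight -/
theorem exists_notMem_of_pr_lt (P : Ω → ℝ) (S : Set Ω) (h : pr P S < ∑ ω, P ω) : ∃ ω, ω ∉ S := by
  by_contra hcon
  push Not at hcon
  have : pr P S = ∑ ω, P ω := by
    unfold pr
    exact Finset.sum_congr rfl fun ω _ => Set.indicator_of_mem (hcon ω) P
  linarith

end Prob

/-- elementary symmetric functions against powers -/
theorem sum_powersetCard_prod_le {ε : Type*} [DecidableEq ε] (w : ε → ℝ) (E : Finset ε)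
    (hw : ∀ e ∈ E, 0 ≤ w e) (t : ℕ) :
    (t.factorial : ℝ) * ∑ M ∈ E.powersetCard t, ∏ e ∈ M, w e ≤ (∑ e ∈ E, w e) ^ t := by
  induction E using Finset.induction_on generalizing t with
  | empty =>
    rcases t with _ | t
    · simp
    · rw [Finset.powersetCard_eq_empty.2 (by simp)]
      simp
  | insert a E ha ih =>
    have hwE : ∀ e ∈ E, 0 ≤ w e := fun e he => hw e (Finset.mem_insert_of_mem he)
    have hwa : 0 ≤ w a := hw a (Finset.mem_insert_self a E)
    have hS : 0 ≤ ∑ e ∈ E, w e := Finset.sum_nonneg hwE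
    rcases t with _ | t
    · simp
    · have h1 : ∑ M ∈ (insert a E).powersetCard (t + 1), ∏ e ∈ M, w e
          = ∑ M ∈ E.powersetCard (t + 1), ∏ e ∈ M, w e
            + w a * ∑ M ∈ E.powersetCard t, ∏ e ∈ M, w e := by
        rw [Finset.powersetCard_succ_insert ha, Finset.sum_union, Finset.mul_sum]
        · congr 1
          rw [Finset.sum_image]
          · refine Finset.sum_congr rfl fun M hM => ?_
            rw [Finset.prod_insert]
            exact fun h => ha ((Finset.mem_powersetCard.1 hM).1 h)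
          · intro M hM N hN hMN
            have hM' : a ∉ M := fun h => ha ((Finset.mem_powersetCard.1 hM).1 h)
            have hN' : a ∉ N := fun h => ha ((Finset.mem_powersetCard.1 hN).1 h)
            rw [← Finset.erase_insert hM', ← Finset.erase_insert hN', hMN]
        · rw [Finset.disjoint_left]
          intro M hM hM2
          obtain ⟨N, hN, rfl⟩ := Finset.mem_image.1 hM2
          exact ha ((Finset.mem_powersetCard.1 hM).1 (Finset.mem_insert_self a N))
      have h2 := ih hwE (t + 1)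
      have h3 := ih hwE t
      have h4 : ∀ (S x : ℝ) (n : ℕ), 0 ≤ S → 0 ≤ x →
          S ^ (n + 1) + (n + 1 : ℕ) * x * S ^ n ≤ (S + x) ^ (n + 1) := by
        intro S x n hS hx
        induction n with
        | zero => simp
        | succ n ih2 =>
          have h5 : (S + x) * (S ^ (n + 1) + (n + 1 : ℕ) * x * S ^ n) ≤ (S + x) ^ (n + 1 + 1) := by
            rw [pow_succ' (S + x) (n + 1)]
            exact mul_le_mul_of_nonneg_left ih2 (by linarith)
          refine le_trans ?_ h5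
          have h6 : 0 ≤ (n + 1 : ℕ) * x ^ 2 * S ^ n := by positivity
          have h7 : (S + x) * (S ^ (n + 1) + (n + 1 : ℕ) * x * S ^ n)
              = S ^ (n + 1 + 1) + (n + 1 + 1 : ℕ) * x * S ^ (n + 1)
                + (n + 1 : ℕ) * x ^ 2 * S ^ n := by
            push_cast
            ring
          linarith [h6, h7]
      have h5 := h4 (∑ e ∈ E, w e) (w a) t hS hwa
      rw [Finset.sum_insert ha, h1, add_comm (w a)]
      refine le_trans ?_ h5
      rw [mul_add]
      refine add_le_add h2 ?_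
      rw [Nat.factorial_succ]
      push_cast
      have h6 : 0 ≤ ((t : ℝ) + 1) * w a := by positivity
      calc ((t : ℝ) + 1) * (t.factorial : ℝ) * (w a * ∑ M ∈ E.powersetCard t, ∏ e ∈ M, w e)
          = ((t : ℝ) + 1) * w a * ((t.factorial : ℝ) * ∑ M ∈ E.powersetCard t, ∏ e ∈ M, w e) := by
            ring
        _ ≤ ((t : ℝ) + 1) * w a * (∑ e ∈ E, w e) ^ t := mul_le_mul_of_nonneg_left h3 h6

variable {Ω γ ε : Type*} [Fintype Ω] [DecidableEq γ] [DecidableEq ε]

/-- many pairwise disjoint edges inside the random set, no hypothesis on degrees -/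
theorem disjoint_edges_tail (P : Ω → ℝ) (hP : ∀ ω, 0 ≤ P ω) (V : Ω → Finset γ) (p : γ → ℝ)
    (hp : ∀ v, 0 ≤ p v)
    (hind : ∀ T : Finset γ, pr P {ω | T ⊆ V ω} ≤ ∏ v ∈ T, p v)
    (E : Finset ε) (supp : ε → Finset γ) (μ : ℝ) (hμ : ∑ e ∈ E, ∏ v ∈ supp e, p v ≤ μ) (t : ℕ) :
    pr P {ω | ∃ M ⊆ E, M.card = t ∧ (M : Set ε).PairwiseDisjoint supp ∧ ∀ e ∈ M, supp e ⊆ V ω}
      ≤ μ ^ t / (t.factorial : ℝ) := by
  classical
  have hw : ∀ e ∈ E, 0 ≤ ∏ v ∈ supp e, p v := fun e _ => Finset.prod_nonneg fun v _ => hp v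
  have h1 := sum_powersetCard_prod_le (fun e => ∏ v ∈ supp e, p v) E hw t
  have h0 : (0 : ℝ) < (t.factorial : ℝ) := Nat.cast_pos.2 (Nat.factorial_pos t)
  have h2 : ∑ M ∈ E.powersetCard t, ∏ e ∈ M, ∏ v ∈ supp e, p v ≤ μ ^ t / (t.factorial : ℝ) := by
    rw [le_div_iff₀ h0, mul_comm]
    exact h1.trans (pow_le_pow_left₀ (Finset.sum_nonneg hw) hμ t)
  refine le_trans (pr_biUnion_le P hP ((E.powersetCard t).filter fun M : Finset ε =>
    (M : Set ε).PairwiseDisjoint supp) (fun M => {ω | M.biUnion supp ⊆ V ω}) _ ?_) ?_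
  · rintro ω ⟨M, hME, hMt, hMd, hMV⟩
    refine ⟨M, Finset.mem_filter.2 ⟨Finset.mem_powersetCard.2 ⟨hME, hMt⟩, hMd⟩, ?_⟩
    intro v hv
    obtain ⟨e, he, hve⟩ := Finset.mem_biUnion.1 hv
    exact hMV e he hve
  · calc ∑ M ∈ (E.powersetCard t).filter (fun M : Finset ε => (M : Set ε).PairwiseDisjoint supp),
          pr P {ω | M.biUnion supp ⊆ V ω}
        ≤ ∑ M ∈ (E.powersetCard t).filter (fun M : Finset ε => (M : Set ε).PairwiseDisjoint supp),
          ∏ e ∈ M, ∏ v ∈ supp e, p v := by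
          refine Finset.sum_le_sum fun M hM => ?_
          refine (hind _).trans (le_of_eq ?_)
          rw [Finset.prod_biUnion]
          exact (Finset.mem_filter.1 hM).2
      _ ≤ ∑ M ∈ E.powersetCard t, ∏ e ∈ M, ∏ v ∈ supp e, p v := by
          refine Finset.sum_le_sum_of_subset_of_nonneg (Finset.filter_subset _ _) ?_
          intro M hM _
          exact Finset.prod_nonneg fun e he => hw e ((Finset.mem_powersetCard.1 hM).1 he)
      _ ≤ _ := h2

/-- many elements of a fixed set inside the random set -/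
theorem inter_tail (P : Ω → ℝ) (hP : ∀ ω, 0 ≤ P ω) (V : Ω → Finset γ) (p : γ → ℝ)
    (hp : ∀ v, 0 ≤ p v)
    (hind : ∀ T : Finset γ, pr P {ω | T ⊆ V ω} ≤ ∏ v ∈ T, p v)
    (T : Finset γ) (μ : ℝ) (hμ : ∑ v ∈ T, p v ≤ μ) (t : ℕ) :
    pr P {ω | t ≤ (T ∩ V ω).card} ≤ μ ^ t / (t.factorial : ℝ) := by
  classical
  refine le_trans (pr_mono P hP ?_) (disjoint_edges_tail P hP V p hp hind T (fun v => {v}) μ
    (by simpa using hμ) t)
  intro ω hω
  obtain ⟨M, hM, hMt⟩ := Finset.exists_subset_card_eq hω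
  refine ⟨M, fun v hv => (Finset.mem_inter.1 (hM hv)).1, hMt, ?_, ?_⟩
  · intro a _ b _ hab
    exact Finset.disjoint_singleton.2 hab
  · intro e he
    exact Finset.singleton_subset_iff.2 (Finset.mem_inter.1 (hM he)).2

/-- from pairwise disjoint edges to all edges: `H` a finite set of edges (those inside `V`),
every vertex of a support in at most `k` edges of `H`, at most `r` vertices per edge, and no `t`
pairwise disjoint edges -/
theorem card_edges_le (H : Finset ε) (supp : ε → Finset γ) (r k t : ℕ)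
    (hr : ∀ e ∈ H, (supp e).card ≤ r)
    (hdeg : ∀ e ∈ H, ∀ v ∈ supp e, (H.filter fun f => v ∈ supp f).card ≤ k)
    (ht : ¬ ∃ M ⊆ H, M.card = t ∧ (M : Set ε).PairwiseDisjoint supp) :
    H.card ≤ (r * k + 1) * t := by
  classical
  -- a maximal matching
  obtain ⟨M, hM, hmax⟩ := Finset.exists_max_image
    (H.powerset.filter fun M : Finset ε => (M : Set ε).PairwiseDisjoint supp) Finset.card
    ⟨∅, by simp⟩
  have hM' := Finset.mem_filter.1 hM
  have hMH := Finset.mem_powerset.1 hM'.1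
  have hMt : M.card < t := by
    by_contra hcon
    push Not at hcon
    obtain ⟨N, hN, hNt⟩ := Finset.exists_subset_card_eq hcon
    exact ht ⟨N, hN.trans hMH, hNt, hM'.2.subset (by exact_mod_cast hN)⟩
  have hcover : H ⊆ M ∪ M.biUnion fun e => (supp e).biUnion fun v => H.filter fun f =>
      v ∈ supp f := by
    intro f hf
    rw [Finset.mem_union]
    by_contra hcon
    push Not at hcon
    have hdis : ∀ e ∈ M, Disjoint (supp e) (supp f) := by
      intro e he
      rw [Finset.disjoint_left]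
      intro v hv hvf
      exact hcon.2 (Finset.mem_biUnion.2 ⟨e, he, Finset.mem_biUnion.2
        ⟨v, hv, Finset.mem_filter.2 ⟨hf, hvf⟩⟩⟩)
    have h1 : insert f M ∈ H.powerset.filter fun M : Finset ε => (M : Set ε).PairwiseDisjoint supp := by
      refine Finset.mem_filter.2 ⟨Finset.mem_powerset.2 (Finset.insert_subset hf hMH), ?_⟩
      rw [Finset.coe_insert, Set.pairwiseDisjoint_insert]
      exact ⟨hM'.2, fun e he _ => (hdis e he).symm⟩
    have h2 := hmax _ h1
    rw [Finset.card_insert_of_notMem hcon.1] at h2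
    omega
  calc H.card ≤ (M ∪ M.biUnion fun e => (supp e).biUnion fun v => H.filter fun f =>
        v ∈ supp f).card := Finset.card_le_card hcover
    _ ≤ M.card + (M.biUnion fun e => (supp e).biUnion fun v => H.filter fun f =>
        v ∈ supp f).card := Finset.card_union_le _ _
    _ ≤ M.card + ∑ e ∈ M, r * k := by
        refine Nat.add_le_add_left (Finset.card_biUnion_le.trans (Finset.sum_le_sum ?_)) _
        intro e he
        calc ((supp e).biUnion fun v => H.filter fun f => v ∈ supp f).card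
            ≤ ∑ v ∈ supp e, (H.filter fun f => v ∈ supp f).card := Finset.card_biUnion_le
          _ ≤ ∑ v ∈ supp e, k := Finset.sum_le_sum fun v hv => hdeg e (hMH he) v hv
          _ = (supp e).card * k := by rw [Finset.sum_const, smul_eq_mul]
          _ ≤ r * k := Nat.mul_le_mul_right k (hr e (hMH he))
    _ = M.card * (r * k + 1) := by rw [Finset.sum_const, smul_eq_mul]; ring
    _ ≤ t * (r * k + 1) := Nat.mul_le_mul_right _ hMt.le
    _ = _ := mul_comm _ _

/-- the edge lemma in the form `pr` -/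
theorem edge_pr (P : Ω → ℝ) (hP : ∀ ω, 0 ≤ P ω) (V : Ω → Finset γ) (p : γ → ℝ)
    (hp : ∀ v, 0 ≤ p v)
    (hind : ∀ T : Finset γ, pr P {ω | T ⊆ V ω} ≤ ∏ v ∈ T, p v)
    (E : Finset ε) (supp : ε → Finset γ) (r d : ℕ) (hr : ∀ e ∈ E, (supp e).card ≤ r)
    (hdeg : ∀ v, (E.filter fun e => v ∈ supp e).card ≤ d)
    (μ K W : ℝ) (hμ0 : 0 ≤ μ) (hμ : ∑ e ∈ E, ∏ v ∈ supp e, p v ≤ μ) (hW : 1 < W) :
    pr P {ω | ((r * d + 1 : ℕ) : ℝ) * (2 * (K + μ) * W / Real.log W)
        ≤ ((E.filter fun e => supp e ⊆ V ω).card : ℝ)}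
      ≤ ((r * d + 1 : ℕ) : ℝ) * Real.exp (-(K * W)) := by
  classical
  rw [pr_eq_sum]
  refine edge_tail_log P hP V p hp ?_ E supp r d hr hdeg μ K W hμ0 hμ hW
  intro T
  have := hind T
  rwa [pr_eq_sum] at this

/-- the independence hypothesis for uniform keys, in the form `pr` -/
theorem ind_keys_pr {Γ Ω' : Type*} [Fintype Γ] [DecidableEq Γ] [Fintype Ω'] [Nonempty Ω']
    (κ : Γ → Type*) [∀ v, Fintype (κ v)] [∀ v, DecidableEq (κ v)] [∀ v, Nonempty (κ v)]
    (S : ∀ v, Finset (κ v)) (T : Finset Γ) :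
    pr (fun _ : (∀ v, κ v) × Ω' => 1 / (Fintype.card ((∀ v, κ v) × Ω') : ℝ))
        {ω | T ⊆ Finset.univ.filter (fun v => ω.1 v ∈ S v)}
      = ∏ v ∈ T, ((S v).card : ℝ) / (Fintype.card (κ v) : ℝ) := by
  classical
  rw [pr_eq_sum]
  exact ind_keys κ S T

end Pool.Agent.Helper1.ET4
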