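import Pool.Agent.Helper1.ET4.VV
import Pool.Agent.Helper72.T4.Mean

/-! Near pairs of the same modulus (N1): the number of pairs `(v, v')` of the window sets with
`v + v' = M`, for all `M` at once. -/

set_option autoImplicit false

namespace Pool.Agent.Helper1.ET4

open Finset Pool.Agent.Helper5.ET

/-- weight of a vertex: `2 ^ (- lev v) ≤ 2 / sqrt v` -/
theorem inv_two_pow_lev_le (v : ℕ) (hv : 1 ≤ v) :
    ((2 : ℝ) ^ lev v)⁻¹ ≤ 2 * (1 / Real.sqrt v) := by
  have h1 : v < 4 ^ (lev v + 1) := Nat.lt_pow_succ_log_self (by norm_num) v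
  have h2 : (v : ℝ) ≤ ((2 : ℝ) * 2 ^ lev v) ^ 2 := by
    have h3 : (v : ℝ) ≤ 4 ^ (lev v + 1) := by exact_mod_cast h1.le
    have h4 : (4 : ℝ) ^ (lev v + 1) = ((2 : ℝ) * 2 ^ lev v) ^ 2 := by
      rw [← pow_succ', ← pow_mul, mul_comm, pow_mul]
      norm_num
    linarith
  have h5 : Real.sqrt v ≤ 2 * 2 ^ lev v := by
    rw [← Real.sqrt_sq (show (0 : ℝ) ≤ 2 * 2 ^ lev v by positivity)]
    exact Real.sqrt_le_sqrt h2
  have h6 : 0 < Real.sqrt (v : ℝ) := Real.sqrt_pos.2 (by exact_mod_cast hv)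
  have h7 : (0 : ℝ) < 2 ^ lev v := by positivity
  rw [inv_eq_one_div, div_le_iff₀ h7, mul_one_div, div_mul_eq_mul_div, le_div_iff₀ h6]
  linarith

/-- the half weight, zero at zero -/
noncomputable def hw (v : ℕ) : ℝ := if v = 0 then 0 else ((2 : ℝ) ^ lev v)⁻¹ / 2

theorem hw_nonneg (v : ℕ) : 0 ≤ hw v := by
  unfold hw
  split_ifs <;> positivity

theorem hw_le (v : ℕ) (hv : 1 ≤ v) : hw v ≤ 1 / Real.sqrt v := by
  have h1 := inv_two_pow_lev_le v hv
  unfold hw
  rw [if_neg (by omega)]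
  linarith

theorem hw_zero : hw 0 = 0 := by simp [hw]

/-- the first coordinates of the pairs `(v, M - v)` in the two ranges -/
def edg (s s' M : ℕ) : Finset ℕ :=
  (range (M + 1)).filter fun v => (1 ≤ v ∧ vlo s ≤ v ∧ v < vhi s) ∧
    (1 ≤ M - v ∧ vlo s' ≤ M - v ∧ M - v < vhi s')

/-- the vertices of the edge `v` -/
def sup1 (s s' M v : ℕ) : Finset (ℕ × ℕ) := {(s, v), (s', M - v)}

theorem sup1_card (s s' M v : ℕ) : (sup1 s s' M v).card ≤ 2 := Finset.card_le_two

theorem mem_edg {s s' M v : ℕ} (h : v ∈ edg s s' M) :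
    v ≤ M ∧ 1 ≤ v ∧ 1 ≤ M - v := by
  unfold edg at h
  have h1 := Finset.mem_filter.1 h
  exact ⟨Nat.lt_succ_iff.1 (Finset.mem_range.1 h1.1), h1.2.1.1, h1.2.2.1⟩

theorem edg_deg (s s' M : ℕ) (q : ℕ × ℕ) :
    ((edg s s' M).filter fun v => q ∈ sup1 s s' M v).card ≤ 2 := by
  have hsub : ((edg s s' M).filter fun v => q ∈ sup1 s s' M v) ⊆ {q.2, M - q.2} := by
    intro v hv
    have hv' := Finset.mem_filter.1 hv
    have h1 := mem_edg hv'.1
    have h2 := hv'.2
    unfold sup1 at h2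
    rw [Finset.mem_insert, Finset.mem_singleton] at h2 ⊢
    rcases h2 with h2 | h2
    · left
      rw [h2]
    · right
      rw [h2]
      simp only
      omega
  exact (Finset.card_le_card hsub).trans Finset.card_le_two

theorem sup1_weight (s s' M v : ℕ) (h : v ∈ edg s s' M) :
    ∏ q ∈ sup1 s s' M v, ((2 : ℝ) ^ lev q.2)⁻¹
      ≤ 4 * (hw v * hw (M - v)) + (if 2 * v = M then 1 else 0) := by
  have h1 := mem_edg h
  have h2 : hw v = ((2 : ℝ) ^ lev v)⁻¹ / 2 := by
    unfold hw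
    rw [if_neg (by omega)]
  have h3 : hw (M - v) = ((2 : ℝ) ^ lev (M - v))⁻¹ / 2 := by
    unfold hw
    rw [if_neg (by omega)]
  by_cases hne : (s, v) = (s', M - v)
  · have h4 : v = M - v := congrArg Prod.snd hne
    have h5 : sup1 s s' M v = {(s, v)} := by
      unfold sup1
      rw [← hne]
      simp
    rw [h5, Finset.prod_singleton, if_pos (by omega)]
    have h6 : ((2 : ℝ) ^ lev v)⁻¹ ≤ 1 := inv_le_one_of_one_le₀ (one_le_pow₀ (by norm_num))
    have h7 := mul_nonneg (hw_nonneg v) (hw_nonneg (M - v))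
    simp only
    linarith
  · unfold sup1
    rw [Finset.prod_pair hne]
    simp only
    rw [h2, h3]
    have h8 : (0 : ℝ) ≤ (if 2 * v = M then (1 : ℝ) else 0) := by split_ifs <;> norm_num
    linarith

theorem edg_mean (s s' M : ℕ) :
    ∑ v ∈ edg s s' M, ∏ q ∈ sup1 s s' M v, ((2 : ℝ) ^ lev q.2)⁻¹ ≤ 17 := by
  have h1 := Pool.Agent.Helper72.T4.mean_sum hw hw M hw_nonneg hw_le hw_le hw_zero hw_zero
  have h2 : ∑ v ∈ range (M + 1), hw v * hw (M - v) = ∑ q ∈ antidiagonal M, hw q.1 * hw q.2 :=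
    (Finset.Nat.sum_antidiagonal_eq_sum_range_succ (fun a b => hw a * hw b) M).symm
  have h3 : ∑ v ∈ range (M + 1), (if 2 * v = M then (1 : ℝ) else 0) ≤ 1 := by
    rw [Finset.sum_boole]
    have : ((range (M + 1)).filter fun v => 2 * v = M).card ≤ 1 := by
      rw [Finset.card_le_one]
      intro a ha b hb
      have := (Finset.mem_filter.1 ha).2
      have := (Finset.mem_filter.1 hb).2
      omega
    exact_mod_cast this
  calc ∑ v ∈ edg s s' M, ∏ q ∈ sup1 s s' M v, ((2 : ℝ) ^ lev q.2)⁻¹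
      ≤ ∑ v ∈ edg s s' M, (4 * (hw v * hw (M - v)) + (if 2 * v = M then 1 else 0)) :=
        Finset.sum_le_sum fun v hv => sup1_weight s s' M v hv
    _ ≤ ∑ v ∈ range (M + 1), (4 * (hw v * hw (M - v)) + (if 2 * v = M then 1 else 0)) := by
        refine Finset.sum_le_sum_of_subset_of_nonneg (Finset.filter_subset _ _) ?_
        intro v _ _
        have := mul_nonneg (hw_nonneg v) (hw_nonneg (M - v))
        have h8 : (0 : ℝ) ≤ (if 2 * v = M then (1 : ℝ) else 0) := by split_ifs <;> norm_num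
        linarith
    _ ≤ 17 := by
        rw [Finset.sum_add_distrib, ← Finset.mul_sum, h2]
        linarith

/-- for one `M` -/
theorem near_one_M (s s' M : ℕ) (hs : 1 ≤ vlo s) (hs' : 1 ≤ vlo s') (K : Finset Key)
    (hK : keysOf s ⊆ K) (hK' : keysOf s' ⊆ K) (L W : ℝ) (hW : 1 < W) :
    PrLe K (fun w => 10 * (L + 17) * W / Real.log W
        ≤ ((((VV s w ×ˢ VV s' w).filter fun q => q.1 + q.2 = M).card : ℕ) : ℝ))
      (5 * Real.exp (-(L * W))) := by
  classical
  have h1 := prLe_edge K (edg s s' M) (sup1 s s' M) (by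
    intro v hv q hq
    unfold sup1 at hq
    rw [Finset.mem_insert, Finset.mem_singleton] at hq
    rcases hq with rfl | rfl
    · exact hK
    · exact hK') 2 2 (fun v _ => sup1_card s s' M v) (edg_deg s s' M) 17 L W (by norm_num)
    (edg_mean s s' M) hW
  refine prLe_mono h1 ?_ ?_
  · intro w hw
    have h2 : ((VV s w ×ˢ VV s' w).filter fun q => q.1 + q.2 = M).card
        ≤ ((edg s s' M).filter fun v => ∀ q ∈ sup1 s s' M v, inV w q).card := by
      refine Finset.card_le_card_of_injOn (fun q => q.1) ?_ ?_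
      · intro q hq
        have hq' := Finset.mem_filter.1 (Finset.mem_coe.1 hq)
        have h3 := Finset.mem_product.1 hq'.1
        have h4 := hq'.2
        have h5 : M - q.1 = q.2 := by omega
        have h6 : vlo s ≤ q.1 ∧ q.1 < vhi s := Finset.mem_Ico.1 (Finset.mem_filter.1 h3.1).1
        have h7 : vlo s' ≤ q.2 ∧ q.2 < vhi s' := Finset.mem_Ico.1 (Finset.mem_filter.1 h3.2).1
        have h8 : 1 ≤ q.1 := hs.trans h6.1
        have h9 : 1 ≤ q.2 := hs'.trans h7.1
        rw [Finset.mem_coe]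
        change q.1 ∈ _
        rw [Finset.mem_filter]
        refine ⟨?_, ?_⟩
        · unfold edg
          rw [Finset.mem_filter, Finset.mem_range, h5]
          exact ⟨by omega, ⟨h8, h6.1, h6.2⟩, h9, h7.1, h7.2⟩
        · intro p hp
          unfold sup1 at hp
          rw [h5, Finset.mem_insert, Finset.mem_singleton] at hp
          rcases hp with rfl | rfl
          · exact h3.1
          · exact h3.2
      · intro q hq p hp hqp
        have hq' := (Finset.mem_filter.1 (Finset.mem_coe.1 hq)).2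
        have hp' := (Finset.mem_filter.1 (Finset.mem_coe.1 hp)).2
        simp only at hqp
        exact Prod.ext hqp (by omega)
    have h3 : ((2 * 2 + 1 : ℕ) : ℝ) * (2 * (L + 17) * W / Real.log W)
        = 10 * (L + 17) * W / Real.log W := by
      push_cast
      ring
    rw [h3]
    refine hw.trans ?_
    have h4 : ((((VV s w ×ˢ VV s' w).filter fun q => q.1 + q.2 = M).card : ℕ) : ℝ)
        ≤ ((((edg s s' M).filter fun v => ∀ q ∈ sup1 s s' M v, inV w q).card : ℕ) : ℝ) := by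
      exact_mod_cast h2
    refine h4.trans (le_of_eq ?_)
    congr!
  · push_cast
    norm_num

/-- for all `M` at once -/
theorem near_one (s s' : ℕ) (hs : 1 ≤ vlo s) (hs' : 1 ≤ vlo s') (K : Finset Key)
    (hK : keysOf s ⊆ K) (hK' : keysOf s' ⊆ K) (L W : ℝ) (hW : 1 < W) (hL : 0 ≤ L) :
    PrLe K (fun w => ∃ M, 10 * (L + 17) * W / Real.log W
        < ((((VV s w ×ˢ VV s' w).filter fun q => q.1 + q.2 = M).card : ℕ) : ℝ))
      ((vhi s + vhi s' : ℕ) * (5 * Real.exp (-(L * W)))) := by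
  have h1 := prLe_union (K := K) (range (vhi s + vhi s'))
    (fun M w => 10 * (L + 17) * W / Real.log W
        ≤ ((((VV s w ×ˢ VV s' w).filter fun q => q.1 + q.2 = M).card : ℕ) : ℝ))
    (fun _ => 5 * Real.exp (-(L * W)))
    (fun M _ => near_one_M s s' M hs hs' K hK hK' L W hW)
  refine prLe_mono h1 ?_ ?_
  · rintro w ⟨M, hM⟩
    refine ⟨M, ?_, hM.le⟩
    rw [Finset.mem_range]
    have h0 : (0 : ℝ) ≤ 10 * (L + 17) * W / Real.log W := by
      have := Real.log_pos hW
      have : 0 < W := by linarith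
      positivity
    have h2 : 0 < ((VV s w ×ˢ VV s' w).filter fun q => q.1 + q.2 = M).card := by
      have : (0 : ℝ) < ((((VV s w ×ˢ VV s' w).filter fun q => q.1 + q.2 = M).card : ℕ) : ℝ) :=
        lt_of_le_of_lt h0 hM
      exact_mod_cast this
    obtain ⟨q, hq⟩ := Finset.card_pos.1 h2
    have hq' := Finset.mem_filter.1 hq
    have h3 := Finset.mem_product.1 hq'.1
    have h6 : vlo s ≤ q.1 ∧ q.1 < vhi s := Finset.mem_Ico.1 (Finset.mem_filter.1 h3.1).1
    have h7 : vlo s' ≤ q.2 ∧ q.2 < vhi s' := Finset.mem_Ico.1 (Finset.mem_filter.1 h3.2).1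
    have := hq'.2
    omega
  · rw [Finset.sum_const, Finset.card_range, nsmul_eq_mul]

end Pool.Agent.Helper1.ET4
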