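import Pool.Agent.Helper1.ET4.NearOne
import Pool.Agent.Helper27.T4.Sch
import Pool.Agent.Helper66.T4.Nj

/-! Final form of (N1): all pairs of states `s' ≤ s`, all `M`, at most `C g / log g` pairs
`(v, v')` of the window sets with `v + v' = M`, outside probability `exp (- sqrt l) / 4`. -/

set_option autoImplicit false

namespace Pool.Agent.Helper1.ET4

open Finset Pool.Agent.Helper5.ET Pool.Agent.Helper27.T4 Pool.Agent.Helper66.T4

theorem sl_le_sk (s : ℕ) : sl s ≤ sk s := ((sl_lt_se s).trans (se_lt_sk s)).le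

theorem vlo_pos (s : ℕ) : 1 ≤ vlo s :=
  Nat.div_pos (Nj_mono (sl_le_sk s)) (Nj_pos _)

theorem vhi_le_pow (s : ℕ) : vhi s ≤ 1000037 ^ (4 * sg s) := by
  have h0 : sl s ≤ sk (s + 1) := (sl_le_sk s).trans (sk_strictMono (Nat.lt_succ_self s)).le
  have h1 := Nj_le_pow h0
  have h2 : sk (s + 1) - sl s ≤ 4 * sg s := by
    have := sk_succ_le s
    omega
  unfold vhi
  calc (Nj (sk (s + 1)) - Nj (se s)) / Nj (sl s) ≤ Nj (sk (s + 1)) / Nj (sl s) :=
        Nat.div_le_div_right (Nat.sub_le _ _)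
    _ ≤ 1000037 ^ (sk (s + 1) - sl s) := Nat.div_le_of_le_mul (by rw [mul_comm]; exact h1)
    _ ≤ 1000037 ^ (4 * sg s) := Nat.pow_le_pow_right (by norm_num) h2

theorem log_lt_14 : Real.log 1000037 < 14 := by
  rw [Real.log_lt_iff_lt_exp (by norm_num)]
  have h1 : (2.7 : ℝ) < Real.exp 1 := by
    have := Real.exp_one_gt_d9
    linarith
  have h2 : Real.exp 14 = Real.exp 1 ^ 14 := by
    rw [← Real.exp_nat_mul]
    norm_num
  rw [h2]
  have h3 : (2.7 : ℝ) ^ 14 < Real.exp 1 ^ 14 := pow_lt_pow_left₀ h1 (by norm_num) (by norm_num)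
  refine lt_trans ?_ h3
  norm_num

theorem pow_le_exp (n : ℕ) : ((1000037 : ℝ)) ^ n ≤ Real.exp (14 * n) := by
  have h1 : (1000037 : ℝ) = Real.exp (Real.log 1000037) := (Real.exp_log (by norm_num)).symm
  calc ((1000037 : ℝ)) ^ n = Real.exp (Real.log 1000037 * n) := by
        conv_lhs => rw [h1]
        rw [← Real.exp_nat_mul]
        ring_nf
    _ ≤ Real.exp (14 * n) := by
        apply Real.exp_le_exp.2
        exact mul_le_mul_of_nonneg_right log_lt_14.le (Nat.cast_nonneg n)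

theorem vhi_le_exp (s : ℕ) : (vhi s : ℝ) ≤ Real.exp (56 * sg s) := by
  have h1 : (vhi s : ℝ) ≤ (1000037 : ℝ) ^ (4 * sg s) := by exact_mod_cast vhi_le_pow s
  refine h1.trans ((pow_le_exp _).trans (Real.exp_le_exp.2 (le_of_eq ?_)))
  push_cast
  ring

theorem sqrt_sl_le (s : ℕ) : Real.sqrt (sl s) ≤ sg s := by
  have h1 := (gap_size' (sl s) (tau_ge _)).1
  have h2 : 64 ≤ Nat.log 2 (sl s) := log_ge (sl_ge s)
  have h3 : Real.sqrt (sl s) ≤ Nat.sqrt (sl s) + 1 := by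
    have h4 : sl s < (Nat.sqrt (sl s) + 1) * (Nat.sqrt (sl s) + 1) := Nat.lt_succ_sqrt _
    rw [Real.sqrt_le_left (by positivity)]
    have h5 : (sl s : ℝ) < (Nat.sqrt (sl s) + 1) * (Nat.sqrt (sl s) + 1) := by exact_mod_cast h4
    nlinarith
  have h4 : 2 ^ 32 ≤ Nat.sqrt (sl s) := sqrt_ge (sl_ge s)
  have h5 : Nat.sqrt (sl s) + 1 ≤ sg s := by
    have h6 : Nat.sqrt (sl s) * 64 ≤ Nat.sqrt (sl s) * Nat.log 2 (sl s) :=
      Nat.mul_le_mul_left _ h2
    unfold sg
    omega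
  have h6 : ((Nat.sqrt (sl s) : ℕ) : ℝ) + 1 ≤ sg s := by exact_mod_cast h5
  linarith

/-- N1 in its final form -/
theorem near_VV_one (s s' : ℕ) (hss : s' ≤ s) (K : Finset Key) (hK : keysOf s ⊆ K)
    (hK' : keysOf s' ⊆ K) :
    PrLe K (fun w => ∃ M, 770 * ((sg s : ℝ) / Real.log (sg s))
        < ((((VV s w ×ˢ VV s' w).filter fun q => q.1 + q.2 = M).card : ℕ) : ℝ))
      (Real.exp (-(Real.sqrt (sl s))) / 4) := by
  have hg : (2 : ℝ) ^ 41 ≤ sg s := by exact_mod_cast sg_ge s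
  have hW : (1 : ℝ) < sg s := lt_of_lt_of_le (by norm_num) hg
  refine prLe_mono (near_one s s' (vlo_pos s) (vlo_pos s') K hK hK' 60 (sg s) hW (by norm_num))
    ?_ ?_
  · rintro w ⟨M, hM⟩
    refine ⟨M, lt_of_le_of_lt (le_of_eq ?_) hM⟩
    ring
  · have h1 := vhi_le_exp s
    have h2 : (vhi s' : ℝ) ≤ Real.exp (56 * sg s) := by
      refine (vhi_le_exp s').trans (Real.exp_le_exp.2 ?_)
      have : (sg s' : ℝ) ≤ sg s := by exact_mod_cast sg_mono hss
      linarith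
    have h3 := sqrt_sl_le s
    have h4 : ((vhi s + vhi s' : ℕ) : ℝ) ≤ 2 * Real.exp (56 * sg s) := by
      push_cast
      linarith
    have h5 : Real.exp (-(60 * (sg s : ℝ))) = Real.exp (-(56 * (sg s : ℝ)))
        * Real.exp (-(3 * (sg s : ℝ))) * Real.exp (-(sg s : ℝ)) := by
      rw [← Real.exp_add, ← Real.exp_add]
      congr 1
      ring
    have h6 : Real.exp (56 * (sg s : ℝ)) * Real.exp (-(56 * (sg s : ℝ))) = 1 := by
      rw [← Real.exp_add]
      simp
    have h7 : Real.exp (-(3 * (sg s : ℝ))) ≤ 1 / 40 := by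
      have h8 : (40 : ℝ) ≤ Real.exp (3 * sg s) := by
        have := Real.add_one_le_exp (3 * (sg s : ℝ))
        have h9 : (2 : ℝ) ^ 41 ≤ 3 * sg s := by linarith
        have h10 : (40 : ℝ) ≤ 2 ^ 41 := by norm_num
        linarith
      rw [Real.exp_neg, inv_eq_one_div]
      exact one_div_le_one_div_of_le (by norm_num) h8
    have h8 : Real.exp (-(sg s : ℝ)) ≤ Real.exp (-(Real.sqrt (sl s))) :=
      Real.exp_le_exp.2 (by linarith)
    calc ((vhi s + vhi s' : ℕ) : ℝ) * (5 * Real.exp (-(60 * (sg s : ℝ))))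
        ≤ 2 * Real.exp (56 * sg s) * (5 * Real.exp (-(60 * (sg s : ℝ)))) :=
          mul_le_mul_of_nonneg_right h4 (by positivity)
      _ = 10 * (Real.exp (56 * (sg s : ℝ)) * Real.exp (-(56 * (sg s : ℝ))))
          * Real.exp (-(3 * (sg s : ℝ))) * Real.exp (-(sg s : ℝ)) := by
          rw [h5]
          ring
      _ = 10 * Real.exp (-(3 * (sg s : ℝ))) * Real.exp (-(sg s : ℝ)) := by rw [h6]; ring
      _ ≤ 10 * (1 / 40) * Real.exp (-(Real.sqrt (sl s))) := by
          refine mul_le_mul (by linarith) h8 (Real.exp_pos _).le (by norm_num)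
      _ = Real.exp (-(Real.sqrt (sl s))) / 4 := by ring

end Pool.Agent.Helper1.ET4
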