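import Mathlib

/-! Random subsets of a finite set with independent elements: exponential moments and the choice
of a good subset for many statistics at once (blocks of pairwise disjoint finite sets). -/

set_option autoImplicit false

namespace Pool.Agent.Helper1.ET4

open Finset

variable {α : Type*} [DecidableEq α]

/-- weight of the outcome `V` of the random subset of `U` -/
noncomputable def wt (U : Finset α) (p : α → ℝ) (V : Finset α) : ℝ :=
  (∏ v ∈ V, p v) * ∏ v ∈ U \ V, (1 - p v)

theorem wt_nonneg (U : Finset α) (p : α → ℝ) (hp : ∀ v ∈ U, 0 ≤ p v ∧ p v ≤ 1)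
    (V : Finset α) (hV : V ⊆ U) : 0 ≤ wt U p V := by
  unfold wt
  apply mul_nonneg
  · exact Finset.prod_nonneg fun v hv => (hp v (hV hv)).1
  · refine Finset.prod_nonneg fun v hv => ?_
    have := (hp v (Finset.mem_sdiff.1 hv).1).2
    linarith

/-- total mass one -/
theorem sum_wt (U : Finset α) (p : α → ℝ) : ∑ V ∈ U.powerset, wt U p V = 1 := by
  have h := Finset.prod_add (fun v => p v) (fun v => 1 - p v) U
  unfold wt
  rw [← h]
  simp

/-- probability that a fixed set is contained in the random one -/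
theorem sum_wt_subset (U : Finset α) (p : α → ℝ) (S : Finset α) (hS : S ⊆ U) :
    ∑ V ∈ U.powerset, wt U p V * (if S ⊆ V then 1 else 0) = ∏ v ∈ S, p v := by
  -- use the product formula with the weights `p v` and `0` or `1 - p v`
  have h := Finset.prod_add (fun v => p v) (fun v => if v ∈ S then 0 else 1 - p v) U
  have h1 : ∀ V ∈ U.powerset, wt U p V * (if S ⊆ V then 1 else 0)
      = (∏ v ∈ V, p v) * ∏ v ∈ U \ V, (if v ∈ S then (0 : ℝ) else 1 - p v) := by
    intro V hV
    unfold wt
    by_cases hSV : S ⊆ V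
    · rw [if_pos hSV, mul_one]
      congr 1
      refine Finset.prod_congr rfl fun v hv => ?_
      rw [if_neg]
      intro hvS
      exact (Finset.mem_sdiff.1 hv).2 (hSV hvS)
    · rw [if_neg hSV, mul_zero]
      obtain ⟨s, hsS, hsV⟩ := Finset.not_subset.1 hSV
      have : ∏ v ∈ U \ V, (if v ∈ S then (0 : ℝ) else 1 - p v) = 0 :=
        Finset.prod_eq_zero (Finset.mem_sdiff.2 ⟨hS hsS, hsV⟩) (by rw [if_pos hsS])
      rw [this, mul_zero]
  rw [Finset.sum_congr rfl h1, ← h]
  have h2 : ∀ v ∈ U, p v + (if v ∈ S then (0 : ℝ) else 1 - p v) = if v ∈ S then p v else 1 := by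
    intro v _
    by_cases hv : v ∈ S
    · simp [hv]
    · simp [hv]
  rw [Finset.prod_congr rfl h2, Finset.prod_ite_mem, Finset.inter_eq_right.2 hS]

/-- exponential moment of a sum over pairwise disjoint blocks -/
theorem exp_moment (U : Finset α) (p : α → ℝ) (T : Finset (Finset α))
    (hT : ∀ S ∈ T, S ⊆ U) (hd : (T : Set (Finset α)).PairwiseDisjoint id) (x : Finset α → ℝ) :
    ∑ V ∈ U.powerset, wt U p V * Real.exp (∑ S ∈ T with S ⊆ V, x S)
      = ∏ S ∈ T, (1 + (∏ v ∈ S, p v) * (Real.exp (x S) - 1)) := by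
  have h1 : ∀ V : Finset α, Real.exp (∑ S ∈ T with S ⊆ V, x S)
      = ∑ R ∈ T.powerset, (∏ S ∈ R, (Real.exp (x S) - 1)) * (if R.biUnion id ⊆ V then 1 else 0) := by
    intro V
    rw [Finset.sum_filter, Real.exp_sum]
    have h2 : ∀ S ∈ T, Real.exp (if S ⊆ V then x S else 0)
        = (Real.exp (x S) - 1) * (if S ⊆ V then 1 else 0) + 1 := by
      intro S _
      by_cases h : S ⊆ V
      · simp [h]
      · simp [h]
    rw [Finset.prod_congr rfl h2, Finset.prod_add]
    refine Finset.sum_congr rfl fun R hR => ?_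
    rw [Finset.prod_const_one, mul_one, Finset.prod_mul_distrib]
    congr 1
    by_cases h : R.biUnion id ⊆ V
    · rw [if_pos h]
      refine Finset.prod_eq_one fun S hS => ?_
      rw [if_pos]
      exact (Finset.subset_biUnion_of_mem id hS).trans h
    · rw [if_neg h]
      have : ∃ S ∈ R, ¬ S ⊆ V := by
        by_contra hcon
        push Not at hcon
        exact h (Finset.biUnion_subset.2 hcon)
      obtain ⟨S, hS, hSV⟩ := this
      exact Finset.prod_eq_zero hS (by rw [if_neg hSV])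
  have h3 : ∀ V ∈ U.powerset, wt U p V * Real.exp (∑ S ∈ T with S ⊆ V, x S)
      = ∑ R ∈ T.powerset, (∏ S ∈ R, (Real.exp (x S) - 1)) *
          (wt U p V * (if R.biUnion id ⊆ V then 1 else 0)) := by
    intro V _
    rw [h1 V, Finset.mul_sum]
    refine Finset.sum_congr rfl fun R _ => ?_
    ring
  rw [Finset.sum_congr rfl h3, Finset.sum_comm]
  have h4 : ∀ R ∈ T.powerset, ∑ V ∈ U.powerset, (∏ S ∈ R, (Real.exp (x S) - 1)) *
        (wt U p V * (if R.biUnion id ⊆ V then 1 else 0))
      = (∏ S ∈ R, ((∏ v ∈ S, p v) * (Real.exp (x S) - 1))) * ∏ S ∈ T \ R, (1 : ℝ) := by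
    intro R hR
    have hRT := Finset.mem_powerset.1 hR
    rw [← Finset.mul_sum, sum_wt_subset U p (R.biUnion id)
      (Finset.biUnion_subset.2 fun S hS => hT S (hRT hS)),
      Finset.prod_biUnion (fun a ha b hb hab => hd (hRT ha) (hRT hb) hab)]
    rw [Finset.prod_mul_distrib, Finset.prod_const_one, mul_one, mul_comm]
    rfl
  rw [Finset.sum_congr rfl h4, ← Finset.prod_add]
  refine Finset.prod_congr rfl fun S _ => ?_
  ring

/-- upper bound of the exponential moment -/
theorem exp_moment_le (U : Finset α) (p : α → ℝ) (hp : ∀ v ∈ U, 0 ≤ p v ∧ p v ≤ 1)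
    (T : Finset (Finset α)) (hT : ∀ S ∈ T, S ⊆ U)
    (hd : (T : Set (Finset α)).PairwiseDisjoint id) (x : Finset α → ℝ) :
    ∑ V ∈ U.powerset, wt U p V * Real.exp (∑ S ∈ T with S ⊆ V, x S)
      ≤ Real.exp (∑ S ∈ T, (∏ v ∈ S, p v) * (Real.exp (x S) - 1)) := by
  rw [exp_moment U p T hT hd x, Real.exp_sum]
  refine Finset.prod_le_prod (fun S hS => ?_) (fun S hS => ?_)
  · have h0 : 0 ≤ ∏ v ∈ S, p v := Finset.prod_nonneg fun v hv => (hp v (hT S hS hv)).1
    have h1 : ∏ v ∈ S, p v ≤ 1 :=
      Finset.prod_le_one (fun v hv => (hp v (hT S hS hv)).1) fun v hv => (hp v (hT S hS hv)).2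
    have h2 := Real.exp_pos (x S)
    nlinarith
  · rw [add_comm]
    exact Real.add_one_le_exp _

/-- CHOICE: if the exponential moments of all statistics are small, one subset is good for all of
them.  `T i` are pairwise disjoint blocks, the statistic is the sum of `x i S` over the blocks
`S ⊆ V`. -/
theorem exists_good_blocks {ι : Type*} (U : Finset α) (p : α → ℝ)
    (hp : ∀ v ∈ U, 0 ≤ p v ∧ p v ≤ 1) (I : Finset ι) (T : ι → Finset (Finset α))
    (hT : ∀ i ∈ I, ∀ S ∈ T i, S ⊆ U) (hd : ∀ i ∈ I, (T i : Set (Finset α)).PairwiseDisjoint id)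
    (x : ι → Finset α → ℝ) (t : ι → ℝ)
    (h : ∑ i ∈ I, Real.exp ((∑ S ∈ T i, (∏ v ∈ S, p v) * (Real.exp (x i S) - 1)) - t i) < 1) :
    ∃ V ⊆ U, ∀ i ∈ I, ∑ S ∈ T i with S ⊆ V, x i S < t i := by
  by_contra hcon
  push Not at hcon
  have h1 : ∀ V ∈ U.powerset, wt U p V ≤
      ∑ i ∈ I, wt U p V * Real.exp ((∑ S ∈ T i with S ⊆ V, x i S) - t i) := by
    intro V hV
    have hVU := Finset.mem_powerset.1 hV
    obtain ⟨i, hi, hit⟩ := hcon V hVU
    have h0 := wt_nonneg U p hp V hVU
    calc wt U p V = wt U p V * 1 := (mul_one _).symm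
      _ ≤ wt U p V * Real.exp ((∑ S ∈ T i with S ⊆ V, x i S) - t i) :=
          mul_le_mul_of_nonneg_left (Real.one_le_exp (by linarith)) h0
      _ ≤ _ := Finset.single_le_sum
          (f := fun i => wt U p V * Real.exp ((∑ S ∈ T i with S ⊆ V, x i S) - t i))
          (fun j _ => mul_nonneg h0 (Real.exp_nonneg _)) hi
  have h2 : (1 : ℝ) ≤ ∑ i ∈ I,
      Real.exp ((∑ S ∈ T i, (∏ v ∈ S, p v) * (Real.exp (x i S) - 1)) - t i) := by
    calc (1 : ℝ) = ∑ V ∈ U.powerset, wt U p V := (sum_wt U p).symm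
      _ ≤ ∑ V ∈ U.powerset, ∑ i ∈ I,
            wt U p V * Real.exp ((∑ S ∈ T i with S ⊆ V, x i S) - t i) := Finset.sum_le_sum h1
      _ = ∑ i ∈ I, ∑ V ∈ U.powerset,
            wt U p V * Real.exp ((∑ S ∈ T i with S ⊆ V, x i S) - t i) := Finset.sum_comm
      _ ≤ _ := by
          refine Finset.sum_le_sum fun i hi => ?_
          have h3 : ∀ V ∈ U.powerset,
              wt U p V * Real.exp ((∑ S ∈ T i with S ⊆ V, x i S) - t i)
                = (wt U p V * Real.exp (∑ S ∈ T i with S ⊆ V, x i S)) * Real.exp (- t i) := by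
            intro V _
            rw [sub_eq_add_neg, Real.exp_add]
            ring
          rw [Finset.sum_congr rfl h3, ← Finset.sum_mul, sub_eq_add_neg, Real.exp_add]
          exact mul_le_mul_of_nonneg_right
            (exp_moment_le U p hp (T i) (hT i hi) (hd i hi) (x i)) (Real.exp_nonneg _)
  linarith

/-- CHOICE for linear statistics `∑ v ∈ V, x i v` (any signs) together with pair statistics
`#{v ∈ V : v < σ i v, σ i v ∈ V}` for injections `σ i`... here: linear statistics only. -/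
theorem exists_good {ι : Type*} (U : Finset α) (p : α → ℝ)
    (hp : ∀ v ∈ U, 0 ≤ p v ∧ p v ≤ 1) (I : Finset ι) (x : ι → α → ℝ) (t : ι → ℝ)
    (h : ∑ i ∈ I, Real.exp ((∑ v ∈ U, p v * (Real.exp (x i v) - 1)) - t i) < 1) :
    ∃ V ⊆ U, ∀ i ∈ I, ∑ v ∈ V, x i v < t i := by
  classical
  obtain ⟨V, hV, hV2⟩ := exists_good_blocks U p hp I (fun _ => U.map ⟨fun v => {v},
      Finset.singleton_injective⟩)
    (by
      intro i _ S hS
      obtain ⟨v, hv, rfl⟩ := Finset.mem_map.1 hS
      simpa using hv)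
    (by
      intro i _ S hS R hR hne
      obtain ⟨v, hv, rfl⟩ := Finset.mem_map.1 (Finset.mem_coe.1 hS)
      obtain ⟨u, hu, rfl⟩ := Finset.mem_map.1 (Finset.mem_coe.1 hR)
      simp only [Function.onFun, id]
      simp only [Function.Embedding.coeFn_mk] at hne ⊢
      rw [Finset.disjoint_singleton]
      intro huv
      exact hne (by rw [huv]))
    (fun i S => ∑ v ∈ S, x i v) t
    (by
      refine lt_of_le_of_lt (le_of_eq ?_) h
      refine Finset.sum_congr rfl fun i _ => ?_
      rw [Finset.sum_map]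
      simp)
  refine ⟨V, hV, fun i hi => ?_⟩
  have h1 := hV2 i hi
  rw [Finset.sum_filter, Finset.sum_map] at h1
  simp only [Function.Embedding.coeFn_mk, Finset.singleton_subset_iff, Finset.sum_singleton] at h1
  rw [← Finset.sum_filter, Finset.filter_mem_eq_inter, Finset.inter_eq_right.2 hV] at h1
  exact h1

end Pool.Agent.Helper1.ET4
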