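import Pool.Agent.Helper1.ET4.Rand

/-! Linear statistics and pair statistics `#{v ∈ V : 2 v < M, M - v ∈ V}` together; the usual
upper and lower tails. -/

set_option autoImplicit false

namespace Pool.Agent.Helper1.ET4

open Finset

/-- the lower halves of the pairs `{v, M - v}` inside `U` -/
def half (U : Finset ℕ) (M : ℕ) : Finset ℕ := U.filter fun v => 2 * v < M ∧ M - v ∈ U

theorem exists_good_lin_pair {ι : Type*} (U : Finset ℕ) (p : ℕ → ℝ)
    (hp : ∀ v ∈ U, 0 ≤ p v ∧ p v ≤ 1) (I : Finset ι) (x : ι → ℕ → ℝ) (t : ι → ℝ)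
    (J : Finset ℕ) (θ s : ℕ → ℝ)
    (h : ∑ i ∈ I, Real.exp ((∑ v ∈ U, p v * (Real.exp (x i v) - 1)) - t i)
      + ∑ M ∈ J, Real.exp ((∑ v ∈ half U M, p v * p (M - v) * (Real.exp (θ M) - 1)) - s M) < 1) :
    ∃ V ⊆ U, (∀ i ∈ I, ∑ v ∈ V, x i v < t i) ∧
      ∀ M ∈ J, θ M * ((V.filter fun v => 2 * v < M ∧ M - v ∈ V).card : ℝ) < s M := by
  classical
  -- index type `ι ⊕ ℕ`
  let sing : ℕ ↪ Finset ℕ := ⟨fun v => {v}, Finset.singleton_injective⟩
  let T : ι ⊕ ℕ → Finset (Finset ℕ) := fun k => match k with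
    | Sum.inl _ => U.map sing
    | Sum.inr M => (half U M).image fun v => ({v, M - v} : Finset ℕ)
  let X : ι ⊕ ℕ → Finset ℕ → ℝ := fun k S => match k with
    | Sum.inl i => ∑ v ∈ S, x i v
    | Sum.inr M => θ M
  let tt : ι ⊕ ℕ → ℝ := fun k => match k with
    | Sum.inl i => t i
    | Sum.inr M => s M
  have hinj : ∀ M : ℕ, ∀ v ∈ half U M, ∀ u ∈ half U M,
      ({v, M - v} : Finset ℕ) = {u, M - u} → v = u := by
    intro M v hv u hu huv
    have h1 := (Finset.mem_filter.1 hv).2.1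
    have h2 := (Finset.mem_filter.1 hu).2.1
    have h3 : v ∈ ({u, M - u} : Finset ℕ) := by rw [← huv]; simp
    rcases Finset.mem_insert.1 h3 with h4 | h4
    · exact h4
    · have h5 := Finset.mem_singleton.1 h4
      omega
  obtain ⟨V, hV, hV2⟩ := exists_good_blocks U p hp (I.disjSum J) T
    (by
      intro k hk S hS
      rcases k with i | M
      · obtain ⟨v, hv, rfl⟩ := Finset.mem_map.1 hS
        simpa [sing] using hv
      · obtain ⟨v, hv, rfl⟩ := Finset.mem_image.1 hS
        have hv' := Finset.mem_filter.1 hv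
        intro u hu
        rcases Finset.mem_insert.1 hu with h4 | h4
        · rw [h4]; exact hv'.1
        · rw [Finset.mem_singleton.1 h4]; exact hv'.2.2)
    (by
      intro k hk S hS R hR hne
      rcases k with i | M
      · obtain ⟨v, hv, rfl⟩ := Finset.mem_map.1 (Finset.mem_coe.1 hS)
        obtain ⟨u, hu, rfl⟩ := Finset.mem_map.1 (Finset.mem_coe.1 hR)
        simp only [Function.onFun, id]
        simp only [sing, Function.Embedding.coeFn_mk] at hne ⊢
        rw [Finset.disjoint_singleton]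
        intro huv
        exact hne (by rw [huv])
      · obtain ⟨v, hv, rfl⟩ := Finset.mem_image.1 (Finset.mem_coe.1 hS)
        obtain ⟨u, hu, rfl⟩ := Finset.mem_image.1 (Finset.mem_coe.1 hR)
        simp only [Function.onFun, id]
        have h1 := (Finset.mem_filter.1 hv).2.1
        have h2 := (Finset.mem_filter.1 hu).2.1
        have hne' : v ≠ u := fun h => hne (by rw [h])
        rw [Finset.disjoint_left]
        intro a ha ha'
        simp only [Finset.mem_insert, Finset.mem_singleton] at ha ha'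
        omega)
    X tt
    (by
      refine lt_of_le_of_lt (le_of_eq ?_) h
      rw [Finset.sum_disjSum]
      congr 1
      · refine Finset.sum_congr rfl fun i _ => ?_
        simp only [T, X, tt]
        rw [Finset.sum_map]
        simp [sing]
      · refine Finset.sum_congr rfl fun M _ => ?_
        simp only [T, X, tt]
        rw [Finset.sum_image (fun v hv u hu huv => hinj M v hv u hu huv)]
        congr 2
        refine Finset.sum_congr rfl fun v hv => ?_
        have h1 := (Finset.mem_filter.1 hv).2.1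
        rw [Finset.prod_pair (by omega)])
  refine ⟨V, hV, fun i hi => ?_, fun M hM => ?_⟩
  · have h1 := hV2 (Sum.inl i) (Finset.inl_mem_disjSum.2 hi)
    simp only [T, X, tt] at h1
    rw [Finset.sum_filter, Finset.sum_map] at h1
    simp only [sing, Function.Embedding.coeFn_mk, Finset.singleton_subset_iff,
      Finset.sum_singleton] at h1
    rw [← Finset.sum_filter, Finset.filter_mem_eq_inter, Finset.inter_eq_right.2 hV] at h1
    exact h1
  · have h1 := hV2 (Sum.inr M) (Finset.inr_mem_disjSum.2 hM)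
    simp only [T, X, tt] at h1
    rw [Finset.sum_const, nsmul_eq_mul, mul_comm] at h1
    have h2 : (((half U M).image fun v => ({v, M - v} : Finset ℕ)).filter fun S => S ⊆ V)
        = (V.filter fun v => 2 * v < M ∧ M - v ∈ V).image fun v => ({v, M - v} : Finset ℕ) := by
      ext S
      simp only [Finset.mem_filter, Finset.mem_image, half]
      constructor
      · rintro ⟨⟨v, hv, rfl⟩, hSV⟩
        have ha : v ∈ V := hSV (by simp)
        have hb : M - v ∈ V := hSV (by simp)
        exact ⟨v, ⟨ha, hv.2.1, hb⟩, rfl⟩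
      · rintro ⟨v, hv, rfl⟩
        refine ⟨⟨v, ⟨hV hv.1, hv.2.1, hV hv.2.2⟩, rfl⟩, ?_⟩
        intro u hu
        rcases Finset.mem_insert.1 hu with h4 | h4
        · rw [h4]; exact hv.1
        · rw [Finset.mem_singleton.1 h4]; exact hv.2.2
    rw [h2, Finset.card_image_of_injOn] at h1
    · exact h1
    · intro v hv u hu huv
      have hv' := Finset.mem_filter.1 (Finset.mem_coe.1 hv)
      have hu' := Finset.mem_filter.1 (Finset.mem_coe.1 hu)
      exact hinj M v (Finset.mem_filter.2 ⟨hV hv'.1, hv'.2.1, hV hv'.2.2⟩) u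
        (Finset.mem_filter.2 ⟨hV hu'.1, hu'.2.1, hV hu'.2.2⟩) huv

/-- `exp y - 1 ≤ (e - 1) y ≤ 2 y` on `[0,1]` -/
theorem exp_sub_one_le_two_mul {y : ℝ} (h0 : 0 ≤ y) (h1 : y ≤ 1) : Real.exp y - 1 ≤ 2 * y := by
  have h2 : |Real.exp y - 1 - y| ≤ y ^ 2 := Real.abs_exp_sub_one_sub_id_le (by rw [abs_of_nonneg h0]; exact h1)
  have h3 := (abs_le.1 h2).2
  nlinarith

/-- exponent of the small weight upper tail: `x = w / m` -/
theorem small_weight_exponent {α : Type*} (U : Finset α) (p w : α → ℝ)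
    (hp : ∀ v ∈ U, 0 ≤ p v) (m : ℝ) (hm : 0 < m) (hw : ∀ v ∈ U, 0 ≤ w v ∧ w v ≤ m) (μ : ℝ)
    (hμ : ∑ v ∈ U, p v * w v ≤ μ) (t : ℝ) :
    (∑ v ∈ U, p v * (Real.exp (w v / m) - 1)) - t / m ≤ (2 * μ - t) / m := by
  have h1 : ∑ v ∈ U, p v * (Real.exp (w v / m) - 1) ≤ ∑ v ∈ U, (2 / m) * (p v * w v) := by
    refine Finset.sum_le_sum fun v hv => ?_
    have h2 := exp_sub_one_le_two_mul (div_nonneg (hw v hv).1 hm.le)
      ((div_le_one hm).2 (hw v hv).2)
    calc p v * (Real.exp (w v / m) - 1) ≤ p v * (2 * (w v / m)) :=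
          mul_le_mul_of_nonneg_left h2 (hp v hv)
      _ = (2 / m) * (p v * w v) := by ring
  rw [← Finset.mul_sum] at h1
  have h3 : (2 / m) * ∑ v ∈ U, p v * w v ≤ (2 / m) * μ :=
    mul_le_mul_of_nonneg_left hμ (by positivity)
  calc _ ≤ (2 / m) * μ - t / m := by linarith
    _ = (2 * μ - t) / m := by ring

/-- exponent of the Poisson upper tail with weights in `[0, D]` -/
theorem poisson_exponent {α : Type*} (U : Finset α) (p w : α → ℝ)
    (hp : ∀ v ∈ U, 0 ≤ p v) (D : ℝ) (hD : 0 < D) (hw : ∀ v ∈ U, 0 ≤ w v ∧ w v ≤ D) (μ : ℝ)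
    (hμ : ∑ v ∈ U, p v * w v ≤ μ) (θ : ℝ) (_hθ : 0 ≤ θ) (t : ℝ) :
    (∑ v ∈ U, p v * (Real.exp (θ * w v) - 1)) - θ * t
      ≤ μ / D * Real.exp (θ * D) - θ * t := by
  have hconv : ∀ v ∈ U, Real.exp (θ * w v) - 1 ≤ (w v / D) * Real.exp (θ * D) := by
    intro v hv
    obtain ⟨h0, h1⟩ := hw v hv
    -- convexity of `exp`
    have h2 := convexOn_exp.2 (Set.mem_univ (0 : ℝ)) (Set.mem_univ (θ * D))
      (sub_nonneg.2 ((div_le_one hD).2 h1)) (div_nonneg h0 hD.le) (by ring)
    have h3 : (1 - w v / D) • (0 : ℝ) + (w v / D) • (θ * D) = θ * w v := by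
      simp only [smul_eq_mul]
      field_simp
      ring
    rw [h3] at h2
    simp only [smul_eq_mul, Real.exp_zero, mul_one] at h2
    have h4 : 0 ≤ w v / D := div_nonneg h0 hD.le
    linarith
  have h5 : ∑ v ∈ U, p v * (Real.exp (θ * w v) - 1)
      ≤ ∑ v ∈ U, (Real.exp (θ * D) / D) * (p v * w v) := by
    refine Finset.sum_le_sum fun v hv => ?_
    calc p v * (Real.exp (θ * w v) - 1) ≤ p v * ((w v / D) * Real.exp (θ * D)) :=
          mul_le_mul_of_nonneg_left (hconv v hv) (hp v hv)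
      _ = (Real.exp (θ * D) / D) * (p v * w v) := by ring
  rw [← Finset.mul_sum] at h5
  have h6 : (Real.exp (θ * D) / D) * ∑ v ∈ U, p v * w v ≤ (Real.exp (θ * D) / D) * μ :=
    mul_le_mul_of_nonneg_left hμ (by positivity)
  calc _ ≤ (Real.exp (θ * D) / D) * μ - θ * t := by linarith
    _ = _ := by ring

end Pool.Agent.Helper1.ET4
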