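import Pool.Agent.Helper5.ET.Defs
import Pool.Agent.Helper1.ET4.Edge3

/-! The window sets `VV s w` in the model `PrLe`: independence (`prLe_VV`), union bounds, and the
edge lemmas of `Edge`, `Edge3` in the form `PrLe`.  Vertices are pairs `(s, v)`. -/

set_option autoImplicit false

namespace Pool.Agent.Helper1.ET4

open Finset Pool.Agent.Helper5.ET

theorem Mk_pos (k : Key) : 0 < Mk k := by
  unfold Mk
  split_ifs with h
  · exact Nat.pow_pos (pr_prime _).pos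
  · positivity

theorem OmK_pos (K : Finset Key) : 0 < (OmK K).card := by
  unfold OmK
  rw [Pool.Agent.Helper29.T4.card_Om]
  exact Finset.prod_pos fun k _ => Mk_pos k.1

theorem prLe_of_empty {K : Finset Key} {B : (Key → ℕ) → Prop} {ε : ℝ} (h : ∀ w, ¬ B w)
    (hε : 0 ≤ ε) : PrLe K B ε := by
  classical
  unfold PrLe
  have h1 : (OmK K).filter (fun r => B (Pool.Agent.Helper5.ET.ext K r)) = ∅ :=
    Finset.filter_false_of_mem fun r _ => h _
  have h2 : (((OmK K).filter (fun r => B (Pool.Agent.Helper5.ET.ext K r))).card : ℝ)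
      ≤ ε * ((OmK K).card : ℝ) := by
    rw [h1]
    simp only [Finset.card_empty, Nat.cast_zero]
    positivity
  convert h2 using 1

theorem prLe_of_sub {K : Finset Key} {B : (Key → ℕ) → Prop} {ε : ℝ} (S : Finset (K → ℕ))
    (h : ∀ r ∈ OmK K, B (Pool.Agent.Helper5.ET.ext K r) → r ∈ S)
    (hS : (S.card : ℝ) ≤ ε * ((OmK K).card : ℝ)) : PrLe K B ε := by
  classical
  unfold PrLe
  refine (Nat.cast_le.2 (Finset.card_le_card ?_)).trans hS
  intro r hr
  have hr' := Finset.mem_filter.1 hr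
  exact h r hr'.1 hr'.2

/-- a vertex belongs to the random set -/
def inV (w : Key → ℕ) (q : ℕ × ℕ) : Prop := q.2 ∈ VV q.1 w

theorem Mk_bkey (s v : ℕ) : Mk (bkey s v) = 2 ^ lev v := by
  unfold Mk bkey
  simp

theorem vhi_le (s : ℕ) : vhi s ≤ Nj (sk (s + 1)) :=
  (Nat.div_le_self _ _).trans (Nat.sub_le _ _)

theorem bkey_mem (s v : ℕ) (hv : v < vhi s) : bkey s v ∈ keysOf s := by
  have h1 : v ≤ Nj (sk (s + 1)) := hv.le.trans (vhi_le s)
  unfold keysOf bkey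
  rw [Finset.mem_product, Finset.mem_product]
  refine ⟨Finset.mem_singleton.2 rfl, by simp, ?_⟩
  rw [Fintype.mem_piFinset]
  intro f
  rw [Finset.mem_range]
  have h2 : lev v ≤ v := Nat.log_le_self 4 v
  have h3 : v / 2 ^ lev v ≤ v := Nat.div_le_self _ _
  fin_cases f
  · simp only [Fin.zero_eta, Matrix.cons_val_zero]
    omega
  · simp only [Fin.mk_one, Matrix.cons_val_one, Matrix.cons_val_zero]
    omega
  · simp only [Fin.reduceFinMk, Matrix.cons_val_two, Matrix.tail_cons, Matrix.head_cons,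
      Matrix.cons_val]
    omega

theorem bkey_inj {s v s' v' : ℕ} (h : bkey s v = bkey s' v')
    (hm : v % 2 ^ lev v = v' % 2 ^ lev v') : s = s' ∧ v = v' := by
  unfold bkey at h
  have h1 : s = s' := congrArg Prod.fst h
  have h2 : (![lev v, v / 2 ^ lev v, 0] : Fin 3 → ℕ) = ![lev v', v' / 2 ^ lev v', 0] :=
    congrArg (fun q => q.2.2) h
  have h3 : lev v = lev v' := by
    have := congrFun h2 0
    simpa using this
  have h4 : v / 2 ^ lev v = v' / 2 ^ lev v' := by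
    have := congrFun h2 1
    simpa using this
  refine ⟨h1, ?_⟩
  rw [← Nat.div_add_mod v (2 ^ lev v), ← Nat.div_add_mod v' (2 ^ lev v'), h4, hm, h3]

/-- INDEPENDENCE: distinct vertices lie in the random sets with probability at most the product -/
theorem prLe_VV (K : Finset Key) (T : Finset (ℕ × ℕ)) (hK : ∀ q ∈ T, keysOf q.1 ⊆ K) :
    PrLe K (fun w => ∀ q ∈ T, inV w q) (∏ q ∈ T, ((2 : ℝ) ^ lev q.2)⁻¹) := by
  have hnn : (0 : ℝ) ≤ ∏ q ∈ T, ((2 : ℝ) ^ lev q.2)⁻¹ :=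
    Finset.prod_nonneg fun q _ => by positivity
  by_cases h1 : ∀ q ∈ T, vlo q.1 ≤ q.2 ∧ q.2 < vhi q.1
  swap
  · push Not at h1
    obtain ⟨q, hq, hq2⟩ := h1
    refine prLe_of_empty (fun w hw => ?_) hnn
    have h2 := hw q hq
    unfold inV VV at h2
    have h3 := Finset.mem_Ico.1 (Finset.mem_filter.1 h2).1
    exact absurd (hq2 h3.1) (not_le.2 h3.2)
  by_cases h2 : ∀ q ∈ T, ∀ q' ∈ T, bkey q.1 q.2 = bkey q'.1 q'.2 → q = q'
  swap
  · push Not at h2
    obtain ⟨q, hq, q', hq', hb, hne⟩ := h2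
    refine prLe_of_empty (fun w hw => ?_) hnn
    have h3 := hw q hq
    have h4 := hw q' hq'
    unfold inV VV at h3 h4
    have h5 := (Finset.mem_filter.1 h3).2
    have h6 := (Finset.mem_filter.1 h4).2
    rw [hb] at h5
    obtain ⟨h7, h8⟩ := bkey_inj hb (h5.trans h6.symm)
    exact hne (Prod.ext h7 h8)
  -- the pinned keys
  classical
  let bk : ℕ × ℕ → Key := fun q => bkey q.1 q.2
  have hbK : ∀ k ∈ T.image bk, k ∈ K := by
    intro k hk
    obtain ⟨q, hq, rfl⟩ := Finset.mem_image.1 hk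
    exact hK q hq (bkey_mem _ _ (h1 q hq).2)
  let K' : Finset K := (T.image bk).subtype (fun k => k ∈ K)
  let vl : K → ℕ := fun k => if h : ∃ q ∈ T, bk q = k.1 then h.choose.2 % 2 ^ lev h.choose.2 else 0
  refine prLe_of_sub ((Pool.Agent.Helper29.T4.Om (fun k : K => Mk k.1)).filter
        (fun r => ∀ k ∈ K', r k = vl k)) ?_ ?_
  · intro r hr hr2
    refine Finset.mem_filter.2 ⟨hr, ?_⟩
    intro k hk
    have hk' : k.1 ∈ T.image bk := Finset.mem_subtype.1 hk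
    obtain ⟨q, hq, hqk⟩ := Finset.mem_image.1 hk'
    have hex : ∃ q ∈ T, bk q = k.1 := ⟨q, hq, hqk⟩
    have h3 : vl k = hex.choose.2 % 2 ^ lev hex.choose.2 := dif_pos hex
    have h4 := hr2 hex.choose hex.choose_spec.1
    unfold inV VV at h4
    have h5 := (Finset.mem_filter.1 h4).2
    have h6 : bkey hex.choose.1 hex.choose.2 = k.1 := hex.choose_spec.2
    rw [h6] at h5
    rw [h3, h5]
    unfold Pool.Agent.Helper5.ET.ext
    rw [dif_pos k.2]
  have h3 := Pool.Agent.Helper29.T4.pin_card (fun k : K => Mk k.1) K' vl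
  have h4 : ∏ k ∈ K', Mk k.1 = ∏ q ∈ T, 2 ^ lev q.2 := by
    have h5 : ∏ k ∈ K', Mk k.1 = ∏ k ∈ T.image bk, Mk k :=
      Finset.prod_subtype_of_mem (fun k => Mk k) hbK
    rw [h5, Finset.prod_image]
    · exact Finset.prod_congr rfl fun q _ => Mk_bkey q.1 q.2
    · intro q hq q' hq' hqq
      exact h2 q hq q' hq' hqq
  rw [h4] at h3
  have h6 : (0 : ℝ) < ∏ q ∈ T, (2 : ℝ) ^ lev q.2 := Finset.prod_pos fun q _ => by positivity
  rw [Finset.prod_inv_distrib, inv_mul_eq_div, le_div_iff₀ h6]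
  unfold OmK
  exact_mod_cast h3

/-! ### the model `pr` -/

/-- the outcomes -/
abbrev OmT (K : Finset Key) : Type := {r : K → ℕ // r ∈ OmK K}

/-- the uniform weight -/
noncomputable def PK (K : Finset Key) : OmT K → ℝ := fun _ => ((OmK K).card : ℝ)⁻¹

theorem PK_nonneg (K : Finset Key) (ω : OmT K) : 0 ≤ PK K ω := by
  unfold PK
  positivity

open Classical in
theorem pr_PK (K : Finset Key) (B : (Key → ℕ) → Prop) :
    pr (PK K) {ω | B (Pool.Agent.Helper5.ET.ext K ω.1)}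
      = (((OmK K).filter (fun r => B (Pool.Agent.Helper5.ET.ext K r))).card : ℝ) * ((OmK K).card : ℝ)⁻¹ := by
  rw [pr_eq_sum]
  have h1 : ∀ ω : OmT K, PK K ω * (if ω ∈ {ω : OmT K | B (Pool.Agent.Helper5.ET.ext K ω.1)} then (1 : ℝ) else 0)
      = (fun r : K → ℕ => ((OmK K).card : ℝ)⁻¹ * (if B (Pool.Agent.Helper5.ET.ext K r) then (1 : ℝ) else 0)) ω.1 := by
    intro ω
    rfl
  rw [Finset.sum_congr rfl fun ω _ => h1 ω]
  rw [Finset.sum_coe_sort (OmK K)
    (fun r : K → ℕ => ((OmK K).card : ℝ)⁻¹ * (if B (Pool.Agent.Helper5.ET.ext K r) then (1 : ℝ) else 0))]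
  rw [← Finset.mul_sum, Finset.sum_boole, mul_comm]

theorem prLe_iff (K : Finset Key) (B : (Key → ℕ) → Prop) (ε : ℝ) :
    PrLe K B ε ↔ pr (PK K) {ω | B (Pool.Agent.Helper5.ET.ext K ω.1)} ≤ ε := by
  classical
  have h0 : (0 : ℝ) < (OmK K).card := Nat.cast_pos.2 (OmK_pos K)
  rw [pr_PK, ← div_eq_mul_inv, div_le_iff₀ h0]
  unfold PrLe
  constructor
  · intro h
    convert h using 1
  · intro h
    convert h using 1

theorem prLe_mono {K : Finset Key} {B B' : (Key → ℕ) → Prop} {ε ε' : ℝ} (h : PrLe K B' ε')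
    (hB : ∀ w, B w → B' w) (hε : ε' ≤ ε) : PrLe K B ε := by
  rw [prLe_iff] at h ⊢
  exact (pr_mono _ (PK_nonneg K) fun ω hω => hB _ hω).trans (h.trans hε)

/-- union bound over a finite set -/
theorem prLe_union {ι : Type*} {K : Finset Key} (I : Finset ι) (B : ι → (Key → ℕ) → Prop)
    (ε : ι → ℝ) (h : ∀ i ∈ I, PrLe K (B i) (ε i)) :
    PrLe K (fun w => ∃ i ∈ I, B i w) (∑ i ∈ I, ε i) := by
  rw [prLe_iff]
  refine (pr_biUnion_le (PK K) (PK_nonneg K) I (fun i => {ω | B i (Pool.Agent.Helper5.ET.ext K ω.1)}) _ ?_).trans ?_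
  · intro ω hω
    exact hω
  · exact Finset.sum_le_sum fun i hi => (prLe_iff K (B i) (ε i)).1 (h i hi)

theorem prLe_or {K : Finset Key} {B B' : (Key → ℕ) → Prop} {ε ε' : ℝ} (h : PrLe K B ε)
    (h' : PrLe K B' ε') : PrLe K (fun w => B w ∨ B' w) (ε + ε') := by
  rw [prLe_iff] at h h' ⊢
  exact (pr_union_le _ (PK_nonneg K) _ _).trans (add_le_add h h')

theorem prLe_nonneg {K : Finset Key} {B : (Key → ℕ) → Prop} {ε : ℝ} (h : PrLe K B ε) : 0 ≤ ε :=
  (pr_nonneg _ (PK_nonneg K) _).trans ((prLe_iff K B ε).1 h)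

/-- the event depends only on the values on the outcomes: `w k < Mk k` may be assumed -/
theorem prLe_mono' {K : Finset Key} {B B' : (Key → ℕ) → Prop} {ε ε' : ℝ} (h : PrLe K B' ε')
    (hB : ∀ w, (∀ k ∈ K, w k < Mk k) → B w → B' w) (hε : ε' ≤ ε) : PrLe K B ε := by
  rw [prLe_iff] at h ⊢
  refine (pr_mono _ (PK_nonneg K) fun ω hω => hB _ ?_ hω).trans (h.trans hε)
  intro k hk
  unfold Pool.Agent.Helper5.ET.ext
  rw [dif_pos hk]
  have h1 := ω.2
  unfold OmK Pool.Agent.Helper29.T4.Om at h1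
  rw [Fintype.mem_piFinset] at h1
  exact Finset.mem_range.1 (h1 ⟨k, hk⟩)

open Classical in
/-- the random set of vertices, restricted to a finite set of vertices -/
noncomputable def VK (K : Finset Key) (U : Finset (ℕ × ℕ)) (ω : OmT K) : Finset (ℕ × ℕ) :=
  U.filter fun q => inV (Pool.Agent.Helper5.ET.ext K ω.1) q

theorem mem_VK {K : Finset Key} {U : Finset (ℕ × ℕ)} {ω : OmT K} {q : ℕ × ℕ} :
    q ∈ VK K U ω ↔ q ∈ U ∧ inV (Pool.Agent.Helper5.ET.ext K ω.1) q := by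
  classical
  unfold VK
  exact Finset.mem_filter

theorem ind_VK (K : Finset Key) (U : Finset (ℕ × ℕ)) (hK : ∀ q ∈ U, keysOf q.1 ⊆ K)
    (T : Finset (ℕ × ℕ)) :
    pr (PK K) {ω | T ⊆ VK K U ω} ≤ ∏ q ∈ T, ((2 : ℝ) ^ lev q.2)⁻¹ := by
  by_cases hT : T ⊆ U
  · have h1 := (prLe_iff _ _ _).1 (prLe_VV K T fun q hq => hK q (hT hq))
    refine le_trans (pr_mono _ (PK_nonneg K) ?_) h1
    intro ω hω q hq
    exact (mem_VK.1 (hω hq)).2
  · have h1 : {ω | T ⊆ VK K U ω} = (∅ : Set (OmT K)) := by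
      rw [Set.eq_empty_iff_forall_notMem]
      intro ω hω
      apply hT
      intro q hq
      exact (mem_VK.1 (hω hq)).1
    rw [h1]
    have h2 : pr (PK K) (∅ : Set (OmT K)) = 0 := by
      unfold pr
      simp
    rw [h2]
    exact Finset.prod_nonneg fun q _ => by positivity

/-! ### the edge lemmas -/

variable {ε : Type*} [DecidableEq ε]

/-- `t` pairwise disjoint edges inside the random sets: probability at most `μ ^ t / t!` -/
theorem prLe_matching (K : Finset Key) (E : Finset ε) (supp : ε → Finset (ℕ × ℕ))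
    (hK : ∀ e ∈ E, ∀ q ∈ supp e, keysOf q.1 ⊆ K) (μ : ℝ)
    (hμ : ∑ e ∈ E, ∏ q ∈ supp e, ((2 : ℝ) ^ lev q.2)⁻¹ ≤ μ) (t : ℕ) :
    PrLe K (fun w => ∃ M ⊆ E, M.card = t ∧ (M : Set ε).PairwiseDisjoint supp ∧
      ∀ e ∈ M, ∀ q ∈ supp e, inV w q) (μ ^ t / (t.factorial : ℝ)) := by
  rw [prLe_iff]
  have hU : ∀ q ∈ E.biUnion supp, keysOf q.1 ⊆ K := by
    intro q hq
    obtain ⟨e, he, hqe⟩ := Finset.mem_biUnion.1 hq
    exact hK e he q hqe
  refine le_trans (pr_mono _ (PK_nonneg K) ?_)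
    (disjoint_edges_tail (PK K) (PK_nonneg K) (VK K (E.biUnion supp))
      (fun q => ((2 : ℝ) ^ lev q.2)⁻¹) (fun q => by positivity)
      (ind_VK K (E.biUnion supp) hU) E supp μ hμ t)
  rintro ω ⟨M, hME, hMt, hMd, hMV⟩
  refine ⟨M, hME, hMt, hMd, ?_⟩
  intro e he q hq
  exact mem_VK.2 ⟨Finset.mem_biUnion.2 ⟨e, hME he, hq⟩, hMV e he q hq⟩

/-- at least `t` elements of a fixed set in the random sets -/
theorem prLe_inter (K : Finset Key) (T : Finset (ℕ × ℕ)) (hK : ∀ q ∈ T, keysOf q.1 ⊆ K) (μ : ℝ)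
    (hμ : ∑ q ∈ T, ((2 : ℝ) ^ lev q.2)⁻¹ ≤ μ) (t : ℕ) :
    PrLe K (fun w => ∃ M ⊆ T, M.card = t ∧ ∀ q ∈ M, inV w q) (μ ^ t / (t.factorial : ℝ)) := by
  refine prLe_mono (prLe_matching K T (fun q => {q}) (fun e he q hq => ?_) μ ?_ t) ?_ le_rfl
  · rw [Finset.mem_singleton.1 hq]
    exact hK e he
  · simpa using hμ
  · rintro w ⟨M, hM, hMt, hMV⟩
    refine ⟨M, hM, hMt, ?_, ?_⟩
    · intro a _ b _ hab
      exact Finset.disjoint_singleton.2 hab
    · intro e he q hq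
      rw [Finset.mem_singleton.1 hq]
      exact hMV e he

open Classical in
/-- THE EDGE LEMMA in the model `PrLe`: at most `r` vertices per edge, at most `d` edges per
vertex, mean at most `μ` -/
theorem prLe_edge (K : Finset Key) (E : Finset ε) (supp : ε → Finset (ℕ × ℕ))
    (hK : ∀ e ∈ E, ∀ q ∈ supp e, keysOf q.1 ⊆ K) (r d : ℕ) (hr : ∀ e ∈ E, (supp e).card ≤ r)
    (hdeg : ∀ v, (E.filter fun e => v ∈ supp e).card ≤ d)
    (μ L W : ℝ) (hμ0 : 0 ≤ μ) (hμ : ∑ e ∈ E, ∏ q ∈ supp e, ((2 : ℝ) ^ lev q.2)⁻¹ ≤ μ)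
    (hW : 1 < W) :
    PrLe K (fun w => ((r * d + 1 : ℕ) : ℝ) * (2 * (L + μ) * W / Real.log W)
        ≤ ((E.filter fun e => ∀ q ∈ supp e, inV w q).card : ℝ))
      (((r * d + 1 : ℕ) : ℝ) * Real.exp (-(L * W))) := by
  rw [prLe_iff]
  have hU : ∀ q ∈ E.biUnion supp, keysOf q.1 ⊆ K := by
    intro q hq
    obtain ⟨e, he, hqe⟩ := Finset.mem_biUnion.1 hq
    exact hK e he q hqe
  refine le_trans (pr_mono _ (PK_nonneg K) ?_)
    (edge_pr (PK K) (PK_nonneg K) (VK K (E.biUnion supp))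
      (fun q => ((2 : ℝ) ^ lev q.2)⁻¹) (fun q => by positivity)
      (ind_VK K (E.biUnion supp) hU) E supp r d hr hdeg μ L W hμ0 hμ hW)
  intro ω hω
  have hω' : ((r * d + 1 : ℕ) : ℝ) * (2 * (L + μ) * W / Real.log W)
      ≤ ((E.filter fun e => ∀ q ∈ supp e, inV (Pool.Agent.Helper5.ET.ext K ω.1) q).card : ℝ) := hω
  refine le_trans hω' (Nat.cast_le.2 (Finset.card_le_card ?_))
  intro e he
  have he' := Finset.mem_filter.1 he
  refine Finset.mem_filter.2 ⟨he'.1, ?_⟩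
  intro q hq
  exact mem_VK.2 ⟨Finset.mem_biUnion.2 ⟨e, he'.1, hq⟩, he'.2 q hq⟩

end Pool.Agent.Helper1.ET4
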